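import Mathlib

/-!
# Definitions for MP_4077b5_an

Systems, polynomials, Abramov systems and translational systems, as in the problem file.
-/

namespace MP4077

open MeasureTheory

/-- The group `𝔽_p^ω`: finitely supported sequences with entries in `ZMod p`. -/
abbrev FpOmega (p : ℕ) : Type := ℕ →₀ ZMod p

section
variable {Γ : Type} [AddCommGroup Γ] {X : Type} [MeasurableSpace X]

/-- `T` is a measure preserving action of `Γ` on `(X, μ)`. -/
structure IsAction (μ : Measure X) (T : Γ → X → X) : Prop where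
  zero : ∀ x, T 0 x = x
  add : ∀ γ δ x, T (γ + δ) x = T γ (T δ x)
  mp : ∀ γ, MeasurePreserving (T γ) μ μ

/-- Ergodicity: every measurable set that is (a.e.) invariant is null or conull. -/
def IsErgodic (μ : Measure X) (T : Γ → X → X) : Prop :=
  ∀ A : Set X, MeasurableSet A → (∀ γ, T γ ⁻¹' A =ᵐ[μ] A) → μ A = 0 ∨ μ Aᶜ = 0

/-- The derivative `∂_γ f = f ∘ T^γ - f`. -/
def der (T : Γ → X → X) (γ : Γ) (f : X → UnitAddCircle) : X → UnitAddCircle :=
  fun x => f (T γ x) - f x

/-- All `n`-fold derivatives `∂_{γ₁} ⋯ ∂_{γ_n} f` vanish almost everywhere. -/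
def PolyLT (μ : Measure X) (T : Γ → X → X) : ℕ → (X → UnitAddCircle) → Prop
  | 0, f => ∀ᵐ x ∂μ, f x = 0
  | n + 1, f => ∀ γ, PolyLT μ T n (der T γ f)

/-- `f` is a (measurable representative of a) polynomial of degree at most `k`:
it is measurable and all its `(k+1)`-fold derivatives vanish a.e. -/
def IsPoly (μ : Measure X) (T : Γ → X → X) (k : ℕ) (f : X → UnitAddCircle) : Prop :=
  Measurable f ∧ PolyLT μ T (k + 1) f

/-- The σ-algebra generated by all polynomials of degree at most `k`. -/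
@[reducible] def polySigma (μ : Measure X) (T : Γ → X → X) (k : ℕ) : MeasurableSpace X :=
  MeasurableSpace.generateFrom
    {A | ∃ f : X → UnitAddCircle, IsPoly μ T k f ∧
      ∃ U : Set UnitAddCircle, MeasurableSet U ∧ A = f ⁻¹' U}

/-- Abramov of order `k`: the σ-algebra of `X` is generated, up to null sets,
by the polynomials of degree at most `k`. -/
def IsAbramov (μ : Measure X) (T : Γ → X → X) (k : ℕ) : Prop :=
  ∀ A : Set X, MeasurableSet A → ∃ B : Set X, MeasurableSet[polySigma μ T k] B ∧ A =ᵐ[μ] B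

/-- Isomorphism of systems (up to null sets). -/
def IsIso {Y : Type} [MeasurableSpace Y] (μ : Measure X) (T : Γ → X → X)
    (ν : Measure Y) (S : Γ → Y → Y) : Prop :=
  ∃ (f : X → Y) (g : Y → X), MeasurePreserving f μ ν ∧ MeasurePreserving g ν μ ∧
    (∀ᵐ x ∂μ, g (f x) = x) ∧ (∀ᵐ y ∂ν, f (g y) = y) ∧
    ∀ γ, ∀ᵐ x ∂μ, f (T γ x) = S γ (f x)

/-- `(X, μ, T)` is a translational system of degree `k`: it is isomorphic to a system `G ⧸ Λ`,
where `G` is a Polish group with a filtration `G = G_0 = G_1 ≥ ⋯ ≥ G_{k+1} = 1` of closed normal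
subgroups with `[G_i, G_j] ≤ G_{i+j}`, `Λ` is a closed cocompact subgroup, `G ⧸ Λ` carries
a `G`-invariant Borel probability measure, and `Γ` acts by left translations
through a homomorphism `φ : Γ → G`. -/
def IsTranslational (μ : Measure X) (T : Γ → X → X) (k : ℕ) : Prop :=
  ∃ (G : Type) (_ : Group G) (_ : TopologicalSpace G) (F : ℕ → Subgroup G) (Λ : Subgroup G)
    (_ : MeasurableSpace (G ⧸ Λ)) (ν : Measure (G ⧸ Λ)) (φ : Multiplicative Γ →* G),
    IsTopologicalGroup G ∧ PolishSpace G ∧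
    F 0 = ⊤ ∧ F 1 = ⊤ ∧ Antitone F ∧ F (k + 1) = ⊥ ∧
    (∀ i, IsClosed (F i : Set G)) ∧ (∀ i, (F i).Normal) ∧ (∀ i j, ⁅F i, F j⁆ ≤ F (i + j)) ∧
    IsClosed (Λ : Set G) ∧ CompactSpace (G ⧸ Λ) ∧
    BorelSpace (G ⧸ Λ) ∧ IsProbabilityMeasure ν ∧
    (∀ g : G, ν.map (fun y => g • y) = ν) ∧
    IsIso μ T ν (fun γ y => φ (Multiplicative.ofAdd γ) • y)

end

end MP4077
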