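import Pool.Agent.Work.MP_4077b5_an.Trans

/-!
# Transfer to `𝔽_2^ω` and the final statement
-/

set_option linter.unusedSectionVars false

namespace MP4077

open MeasureTheory Filter Topology

section transfer
variable {Γ Γ' : Type} [AddCommGroup Γ] [AddCommGroup Γ'] {X : Type} [MeasurableSpace X]
  {μ : Measure X} {T : Γ → X → X}

lemma action_tr (E : Γ' →+ Γ) (h : IsAction μ T) : IsAction μ (fun γ => T (E γ)) :=
  ⟨fun x => by rw [map_zero]; exact h.zero x, fun γ δ x => by rw [map_add]; exact h.add _ _ x,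
    fun γ => h.mp _⟩

lemma erg_tr {E : Γ' →+ Γ} (hE : Function.Surjective E) (h : IsErgodic μ T) :
    IsErgodic μ (fun γ => T (E γ)) := fun A hA hinv => h A hA fun γ => by
  obtain ⟨γ', rfl⟩ := hE γ
  exact hinv γ'

lemma poly_tr {E : Γ' →+ Γ} (hE : Function.Surjective E) {n : ℕ} {f : X → UnitAddCircle} :
    PolyLT μ (fun γ => T (E γ)) n f ↔ PolyLT μ T n f := by
  induction n generalizing f with
  | zero => exact Iff.rfl
  | succ n ih =>
    constructor
    · intro h γ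
      obtain ⟨γ', rfl⟩ := hE γ
      exact ih.1 (h γ')
    · intro h γ'
      exact ih.2 (h (E γ'))

lemma abr_tr {E : Γ' →+ Γ} (hE : Function.Surjective E) {k : ℕ} :
    IsAbramov μ (fun γ => T (E γ)) k ↔ IsAbramov μ T k := by
  have : polySigma μ (fun γ => T (E γ)) k = polySigma μ T k := by
    unfold polySigma IsPoly
    simp only [poly_tr hE]
  unfold IsAbramov
  rw [this]

lemma trans_tr (E : Γ' →+ Γ) {k : ℕ} (h : IsTranslational μ T k) :
    IsTranslational μ (fun γ => T (E γ)) k := by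
  obtain ⟨G, i1, i2, F, Λ, i3, ν, φ, h1, h2, h3, h4, h5, h6, h7, h8, h9, h10, h11, h12, h13, h14,
    f, g, f1, f2, f3, f4, f5⟩ := h
  exact ⟨G, i1, i2, F, Λ, i3, ν, φ.comp (AddMonoidHom.toMultiplicative E), h1, h2, h3, h4, h5, h6,
    h7, h8, h9, h10, h11, h12, h13, h14, f, g, f1, f2, f3, f4, fun γ => f5 (E γ)⟩

end transfer

section noatom
variable {V G : Type} [AddCommGroup V] [Fintype V] [TopologicalSpace V] [DiscreteTopology V]
  [MeasurableSpace V] [DiscreteMeasurableSpace V] [Nontrivial V]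
  [Group G] [Fintype G] [TopologicalSpace G] [DiscreteTopology G]
  [MeasurableSpace G] [DiscreteMeasurableSpace G]

lemma nbK : (𝓝[≠] (0 : ℕ → V)).NeBot := by
  obtain ⟨v, hv⟩ := exists_ne (0 : V)
  have h : Tendsto (fun n => (⇑(Finsupp.single n v) : ℕ → V)) atTop (𝓝[≠] 0) := by
    rw [tendsto_nhdsWithin_iff]
    refine ⟨tendsto_single _, Eventually.of_forall fun n h => ?_⟩
    have h1 : (⇑(Finsupp.single n v) : ℕ → V) = 0 := h
    have h2 := congrFun h1 n
    rw [Finsupp.single_eq_same] at h2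
    exact hv h2
  exact h.neBot

lemma null_singleton (q : (ℕ → V) × G) : (mX V G) {q} = 0 := by
  have := nbK (V := V)
  have h1 : mK V {q.1} = 0 := measure_singleton _
  have h2 : ({q} : Set ((ℕ → V) × G)) ⊆ {q.1} ×ˢ Set.univ := by rintro _ rfl; simp
  refine measure_mono_null h2 ?_
  rw [mX, Measure.prod_prod, h1, zero_mul]

end noatom

lemma exists_enum : ∃ E : FpOmega 2 →+ (ℕ →₀ VV), Function.Surjective E := by
  obtain ⟨e⟩ := nonempty_equiv_of_countable (α := ℕ) (β := ℕ × (Hs × Fin 24))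
  let e1 : (ℕ →₀ ZMod 2) ≃+ ((ℕ × (Hs × Fin 24)) →₀ ZMod 2) := Finsupp.domCongr e
  let e2 : ((ℕ × (Hs × Fin 24)) →₀ ZMod 2) ≃+ (ℕ →₀ ((Hs × Fin 24) →₀ ZMod 2)) :=
    (Finsupp.curryLinearEquiv ℤ).toAddEquiv
  let e3 : ((Hs × Fin 24) →₀ ZMod 2) ≃+ ((Hs × Fin 24) → ZMod 2) :=
    (Finsupp.linearEquivFunOnFinite ℤ (ZMod 2) (Hs × Fin 24)).toAddEquiv
  let e4 : ((Hs × Fin 24) → ZMod 2) ≃+ VV :=
    (LinearEquiv.curry ℤ (ZMod 2) Hs (Fin 24)).toAddEquiv
  let e5 : (ℕ →₀ ((Hs × Fin 24) →₀ ZMod 2)) ≃+ (ℕ →₀ VV) :=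
    Finsupp.mapRange.addEquiv (e3.trans e4)
  exact ⟨((e1.trans e2).trans e5).toAddMonoidHom, ((e1.trans e2).trans e5).surjective⟩

theorem main : ∃ (X : Type) (_ : MeasurableSpace X) (_ : StandardBorelSpace X) (μ : Measure X)
    (T : FpOmega 2 → X → X), IsProbabilityMeasure μ ∧ (∀ x, μ {x} = 0) ∧ IsAction μ T ∧
      IsErgodic μ T ∧ IsTranslational μ T 23 ∧ ¬ IsAbramov μ T 23 := by
  obtain ⟨E, hE⟩ := exists_enum
  refine ⟨KK × Hs, inferInstance, inferInstance, mX VV Hs, fun γ => Tr bet (E γ), inferInstance,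
    null_singleton, action_tr E (isAction_Tr bet), erg_tr hE erg_bet, trans_tr E trans_bet, ?_⟩
  rw [abr_tr hE]
  exact notAbr_bet

end MP4077
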