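import Pool.Agent.Work.MP_4077b5_an.Heis

/-!
# The algebraic obstruction: functions of bounded degree do not see `z^8`
-/

namespace MP4077

namespace Hs

variable {A : Type*} [AddCommGroup A]

/-- difference operator on the right -/
def D {G : Type*} [Mul G] (g : G) (p : G → A) : G → A := fun c => p (c * g) - p c

lemma D_mul {G : Type*} [Semigroup G] (g h : G) (p : G → A) (c : G) :
    D (g * h) p c = D g p c + D h p c + D g (D h p) c := by
  simp only [D, mul_assoc]
  abel

lemma gx_pow (n : ℕ) : gx ^ n = ⟨n, 0, 0⟩ := by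
  induction n with
  | zero => ext <;> simp
  | succ n ih => rw [pow_succ, ih]; ext <;> simp [gx]

lemma gy_pow (n : ℕ) : gy ^ n = ⟨0, n, 0⟩ := by
  induction n with
  | zero => ext <;> simp
  | succ n ih => rw [pow_succ, ih]; ext <;> simp [gy]

lemma gz_pow (n : ℕ) : gz ^ n = ⟨0, 0, n⟩ := by
  induction n with
  | zero => ext <;> simp
  | succ n ih => rw [pow_succ, ih]; ext <;> simp [gz]

lemma gz_eq : gz = gx * gy * gx ^ 15 * gy ^ 15 := by
  rw [gx_pow, gy_pow]; decide

lemma decomp (g : Hs) : g = gy ^ g.j.val * gx ^ g.i.val * gz ^ g.l.val := by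
  rw [gx_pow, gy_pow, gz_pow]
  ext <;> simp

/-- Every element is a product of copies of the two generators. -/
lemma gen_induction {P : Hs → Prop} (hx : P gx) (hy : P gy) (h1 : P 1)
    (hm : ∀ g h, P g → P h → P (g * h)) (g : Hs) : P g := by
  have hpow : ∀ (a : Hs) (n : ℕ), P a → P (a ^ n) := by
    intro a n ha
    induction n with
    | zero => simpa using h1
    | succ n ih => rw [pow_succ]; exact hm _ _ ih ha
  rw [decomp g]
  refine hm _ _ (hm _ _ (hpow _ _ hy) (hpow _ _ hx)) (hpow _ _ ?_)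
  rw [gz_eq]
  exact hm _ _ (hm _ _ (hm _ _ hx hy) (hpow _ _ hx)) (hpow _ _ hy)

lemma const_of (r : Hs → A) (hx : ∀ c, D gx r c = 0) (hy : ∀ c, D gy r c = 0) :
    ∀ g c, r (c * g) = r c := by
  intro g
  refine gen_induction (P := fun g => ∀ c, r (c * g) = r c) ?_ ?_ ?_ ?_ g
  · intro c; exact sub_eq_zero.1 (hx c)
  · intro c; exact sub_eq_zero.1 (hy c)
  · intro c; simp
  · intro g h hg hh c
    rw [← mul_assoc, hh, hg]

lemma const_of' (r : Hs → A) (hx : ∀ c, D gx r c = 0) (hy : ∀ c, D gy r c = 0) :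
    ∀ c, r c = r 1 := by
  intro c
  have := const_of r hx hy c 1
  simpa using this

lemma D_const {r : Hs → A} (h : ∀ c, r c = r 1) (g c : Hs) : D g r c = 0 := by
  simp [D, h (c * g), h c]

/-- if `D gx q` and `D gy q` are constant then `D g q` is constant for all `g`. -/
lemma stepA (q : Hs → A) (hx : ∀ c, D gx q c = D gx q 1) (hy : ∀ c, D gy q c = D gy q 1) :
    ∀ g c, D g q c = D g q 1 := by
  intro g
  refine gen_induction (P := fun g => ∀ c, D g q c = D g q 1) hx hy ?_ ?_ g
  · intro c; simp [D]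
  · intro g h hg hh c
    rw [D_mul, D_mul, D_const hh, D_const hh, hg, hh]

section main
variable (p : Hs → A)
  (h3 : ∀ a b c : Hs, (a = gx ∨ a = gy) → (b = gx ∨ b = gy) → (c = gx ∨ c = gy) →
    ∀ q, D a (D b (D c p)) q = 0)
include h3

lemma stepB (b : Hs) (hb : b = gx ∨ b = gy) : ∀ g c, D g (D b p) c = D g (D b p) 1 := by
  apply stepA
  · exact const_of' _ (h3 _ _ _ (.inl rfl) (.inl rfl) hb) (h3 _ _ _ (.inr rfl) (.inl rfl) hb)
  · exact const_of' _ (h3 _ _ _ (.inl rfl) (.inr rfl) hb) (h3 _ _ _ (.inr rfl) (.inr rfl) hb)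

lemma stepC : ∀ h g c, D g (D h p) c = D g (D h p) 1 := by
  intro h
  refine gen_induction (P := fun h => ∀ g c, D g (D h p) c = D g (D h p) 1) ?_ ?_ ?_ ?_ h
  · exact stepB p h3 _ (.inl rfl)
  · exact stepB p h3 _ (.inr rfl)
  · intro g c; simp [D]
  · intro h h' hh hh' g c
    have e : ∀ c, D g (D (h * h') p) c = D g (D h p) c + D g (D h' p) c := by
      intro c
      have h0 := D_const (hh' h) g c
      simp only [D] at h0 ⊢
      simp only [← mul_assoc] at h0 ⊢
      have : p (c * g * h * h') - p (c * g * h) - (p (c * g * h') - p (c * g)) -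
        (p (c * h * h') - p (c * h) - (p (c * h') - p c)) = 0 := by
        rw [← h0]
      rw [← sub_eq_zero, ← this]
      abel
    rw [e, e, hh, hh']

lemma B_right (g h h' : Hs) : D g (D (h * h') p) 1 = D g (D h p) 1 + D g (D h' p) 1 := by
  have h0 := D_const (stepC p h3 h' h) g 1
  simp only [D] at h0 ⊢
  simp only [← mul_assoc] at h0 ⊢
  rw [← sub_eq_zero, ← h0]
  abel

lemma B_left (g g' h : Hs) : D (g * g') (D h p) 1 = D g (D h p) 1 + D g' (D h p) 1 := by
  rw [D_mul, D_const (stepC p h3 h g'), add_zero]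

lemma B_left_pow (g h : Hs) (n : ℕ) : D (g ^ n) (D h p) 1 = n • D g (D h p) 1 := by
  induction n with
  | zero => simp [D]
  | succ n ih => rw [pow_succ, B_left p h3, ih, succ_nsmul]

lemma B_right_pow (g h : Hs) (n : ℕ) : D g (D (h ^ n) p) 1 = n • D g (D h p) 1 := by
  induction n with
  | zero => simp [D]
  | succ n ih => rw [pow_succ, B_right p h3, ih, succ_nsmul]

lemma B_left_inv (g h : Hs) : D (g⁻¹) (D h p) 1 = - D g (D h p) 1 := by
  have := B_left p h3 g g⁻¹ h
  rw [mul_inv_cancel] at this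
  have h0 : D 1 (D h p) 1 = 0 := by simp [D]
  rw [h0] at this
  exact (neg_eq_of_add_eq_zero_right this.symm).symm

/-- **The algebraic obstruction.** -/
theorem obstruction
    (huv : D (gx ^ 2 * (gy ^ 4)⁻¹) (D (gx ^ 2 * gy ^ 4) p) 1 = 0)
    (hx4 : D gx (D (gx ^ 4) p) 1 = 0) (c : Hs) : p (c * gz ^ 8) = p c := by
  set κ : A := D gx (D gy p) 1 - D gy (D gx p) 1 with hκ
  have hz : ∀ c, p (c * gz) = p c + κ := by
    intro c
    have e1 : gx * gy = gy * gx * gz := by decide
    have a1 := D_mul gx gy p (c * (gy * gx)⁻¹)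
    have a2 := D_mul gy gx p (c * (gy * gx)⁻¹)
    rw [stepC p h3 gy gx] at a1
    rw [stepC p h3 gx gy] at a2
    have a3 : D (gx * gy) p (c * (gy * gx)⁻¹) = p (c * gz) - p (c * (gy * gx)⁻¹) := by
      simp only [D, e1]; congr 2; group
    have a4 : D (gy * gx) p (c * (gy * gx)⁻¹) = p c - p (c * (gy * gx)⁻¹) := by
      simp only [D]; congr 2; group
    rw [a3] at a1
    rw [a4] at a2
    have : p (c * gz) - p c = κ := by
      have : p (c * gz) - p c = (p (c * gz) - p (c * (gy * gx)⁻¹)) - (p c - p (c * (gy * gx)⁻¹)) := by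
        abel
      rw [this, a1, a2, hκ]; abel
    rw [← this]; abel
  have hz8 : ∀ (n : ℕ) c, p (c * gz ^ n) = p c + n • κ := by
    intro n
    induction n with
    | zero => intro c; simp
    | succ n ih => intro c; rw [pow_succ, ← mul_assoc, hz, ih, succ_nsmul]; abel
  have hyy : 16 • D gy (D gy p) 1 = 0 := by
    rw [← B_left_pow p h3]
    have : gy ^ 16 = 1 := by rw [gy_pow]; decide
    rw [this]; simp [D]
  have hxx : 4 • D gx (D gx p) 1 = 0 := by rw [← B_right_pow p h3]; exact hx4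
  rw [B_left p h3, B_left_inv p h3, B_left_pow p h3, B_left_pow p h3, B_right p h3, B_right p h3,
    B_right_pow p h3, B_right_pow p h3, B_right_pow p h3, B_right_pow p h3] at huv
  have key : ∀ a b c d : A, (8 : ℕ) • (b - c) =
      ((2 : ℕ) • ((2 : ℕ) • a + (4 : ℕ) • b) +
        -((4 : ℕ) • ((2 : ℕ) • c + (4 : ℕ) • d))) - (4 : ℕ) • a + (16 : ℕ) • d := by
    intro a b c d
    abel
  have h8 : 8 • κ = 0 := by
    rw [hκ, key (D gx (D gx p) 1) _ _ (D gy (D gy p) 1), hyy, hxx, sub_zero, add_zero]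
    exact huv
  rw [hz8, h8, add_zero]

end main

end Hs

end MP4077
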