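import Pool.Agent.Work.MP_4077b5_an.Heis

/-!
# Polynomial maps from an abelian group to the filtered group `Hs`
-/

namespace MP4077

namespace Hs

variable {K : Type*} [AddCommGroup K]

/-- derivative of a group valued map -/
def dv (a : K) (h : K → Hs) : K → Hs := fun x => h (x + a) * (h x)⁻¹

/-- derivatives of order `m ≤ n` take values in `F (i + m)` -/
def PN : ℕ → ℕ → (K → Hs) → Prop
  | 0, i, h => ∀ x, h x ∈ F i
  | n + 1, i, h => (∀ x, h x ∈ F i) ∧ ∀ a, PN n (i + 1) (dv a h)

lemma PN_val {n i : ℕ} {h : K → Hs} (H : PN n i h) : ∀ x, h x ∈ F i := by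
  cases n with
  | zero => exact H
  | succ n => exact H.1

lemma PN_pred {n i : ℕ} {h : K → Hs} (H : PN (n + 1) i h) : PN n i h := by
  induction n generalizing i h with
  | zero => exact H.1
  | succ n ih => exact ⟨H.1, fun a => ih (H.2 a)⟩

lemma PN_anti {n i j : ℕ} {h : K → Hs} (hij : j ≤ i) (H : PN n i h) : PN n j h := by
  induction n generalizing i j h with
  | zero => exact fun x => F_anti hij (H x)
  | succ n ih => exact ⟨fun x => F_anti hij (H.1 x), fun a => ih (by omega) (H.2 a)⟩

lemma PN_one (n i : ℕ) : PN n i (fun _ : K => (1 : Hs)) := by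
  induction n generalizing i with
  | zero => exact fun _ => one_mem _
  | succ n ih =>
    refine ⟨fun _ => one_mem _, fun a => ?_⟩
    have : dv a (fun _ : K => (1 : Hs)) = fun _ => 1 := by funext x; simp [dv]
    rw [this]; exact ih _

lemma PN_const {i : ℕ} {g : Hs} (hg : g ∈ F i) (n : ℕ) : PN n i (fun _ : K => g) := by
  cases n with
  | zero => exact fun _ => hg
  | succ n =>
    refine ⟨fun _ => hg, fun a => ?_⟩
    have : dv a (fun _ : K => g) = fun _ => 1 := by funext x; simp [dv]
    rw [this]; exact PN_one _ _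

lemma PN_shift {n i : ℕ} {h : K → Hs} (b : K) (H : PN n i h) : PN n i (fun x => h (x + b)) := by
  induction n generalizing i h with
  | zero => exact fun x => H _
  | succ n ih =>
    refine ⟨fun x => H.1 _, fun a => ?_⟩
    have : dv a (fun x => h (x + b)) = fun x => (dv a h) (x + b) := by
      funext x; simp only [dv]; congr 2; abel
    rw [this]; exact ih (H.2 a)

lemma PN_comp {K' : Type*} [AddCommGroup K'] (f : K' →+ K) {n i : ℕ} {h : K → Hs}
    (H : PN n i h) : PN n i (fun x => h (f x)) := by
  induction n generalizing i h with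
  | zero => exact fun x => H _
  | succ n ih =>
    refine ⟨fun x => H.1 _, fun a => ?_⟩
    have : dv a (fun x => h (f x)) = fun x => (dv (f a) h) (f x) := by
      funext x; simp only [dv, map_add]
    rw [this]; exact ih (H.2 _)

/-- central valued -/
def Cen (h : K → Hs) : Prop := ∀ x, (h x).i = 0 ∧ (h x).j = 0

lemma Cen_dv {h : K → Hs} (H : Cen h) (a : K) : Cen (dv a h) := fun x => by
  simp [dv, (H x).1, (H x).2, (H (x + a)).1, (H (x + a)).2]

lemma PN_mul_cen {n i : ℕ} {f g : K → Hs} (cf : Cen f) (cg : Cen g) (hf : PN n i f)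
    (hg : PN n i g) : PN n i (fun x => f x * g x) := by
  induction n generalizing i f g with
  | zero => exact fun x => mul_mem (hf x) (hg x)
  | succ n ih =>
    refine ⟨fun x => mul_mem (hf.1 x) (hg.1 x), fun a => ?_⟩
    have : dv a (fun x => f x * g x) = fun x => dv a f x * dv a g x := by
      funext x
      ext <;> simp [dv, (cf x).1, (cf x).2, (cf (x + a)).1, (cf (x + a)).2,
        (cg x).1, (cg x).2, (cg (x + a)).1, (cg (x + a)).2]
      ring
    rw [this]; exact ih (Cen_dv cf a) (Cen_dv cg a) (hf.2 a) (hg.2 a)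

omit [AddCommGroup K] in
lemma cm_cen (f g : K → Hs) : Cen (fun x => cm (f x) (g x)) := fun x => by simp [cm_eq]

lemma PN_cm {n i j : ℕ} {f g : K → Hs} (hf : PN n i f) (hg : PN n j g) :
    PN n (i + j) (fun x => cm (f x) (g x)) := by
  induction n generalizing i j f g with
  | zero => exact fun x => cm_mem (hf x) (hg x)
  | succ n ih =>
    refine ⟨fun x => cm_mem (hf.1 x) (hg.1 x), fun a => ?_⟩
    have e : dv a (fun x => cm (f x) (g x)) =
        fun x => (cm (dv a f x) (dv a g x) * cm (dv a f x) (g x)) * cm (f x) (dv a g x) := by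
      funext x
      ext <;> simp [dv, cm_eq]
      ring
    rw [e]
    have h1 : PN n (i + j + 1) (fun x => cm (dv a f x) (dv a g x)) :=
      PN_anti (by omega) (ih (hf.2 a) (hg.2 a))
    have h2 : PN n (i + j + 1) (fun x => cm (dv a f x) (g x)) :=
      PN_anti (by omega) (ih (hf.2 a) (PN_pred hg))
    have h3 : PN n (i + j + 1) (fun x => cm (f x) (dv a g x)) :=
      PN_anti (by omega) (ih (PN_pred hf) (hg.2 a))
    have c1 : Cen (fun x => cm (dv a f x) (dv a g x) * cm (dv a f x) (g x)) := fun x => by
      simp [cm_eq]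
    exact PN_mul_cen c1 (cm_cen _ _) (PN_mul_cen (cm_cen _ _) (cm_cen _ _) h1 h2) h3

lemma PN_mul {n i : ℕ} {f g : K → Hs} (hf : PN n i f) (hg : PN n i g) :
    PN n i (fun x => f x * g x) := by
  induction n generalizing i f g with
  | zero => exact fun x => mul_mem (hf x) (hg x)
  | succ n ih =>
    refine ⟨fun x => mul_mem (hf.1 x) (hg.1 x), fun a => ?_⟩
    have e : dv a (fun x => f x * g x) =
        fun x => (dv a f x * cm (f x) (dv a g x)) * dv a g x := by
      funext x
      simp only [dv, cm]
      group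
    rw [e]
    exact ih (ih (hf.2 a) (PN_anti (by omega) (PN_cm (PN_pred hf) (hg.2 a)))) (hg.2 a)

lemma PN_inv {n i : ℕ} {f : K → Hs} (hf : PN n i f) : PN n i (fun x => (f x)⁻¹) := by
  induction n generalizing i f with
  | zero => exact fun x => inv_mem (hf x)
  | succ n ih =>
    refine ⟨fun x => inv_mem (hf.1 x), fun a => ?_⟩
    have e : dv a (fun x => (f x)⁻¹) =
        fun x => (dv a f x * cm (dv a f x) (f x))⁻¹ := by
      funext x
      ext <;> simp [dv, cm_eq] <;> ring
    rw [e]
    exact ih (PN_mul (hf.2 a) (PN_anti (by omega) (PN_cm (hf.2 a) (PN_pred hf))))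

lemma PN_sq {n i : ℕ} (hi : 1 ≤ i) {f : K → Hs} (hf : PN n i f) :
    PN n (i + 1) (fun x => f x * f x) := by
  induction n generalizing i f with
  | zero => exact fun x => sq_mem (hf x)
  | succ n ih =>
    refine ⟨fun x => sq_mem (hf.1 x), fun a => ?_⟩
    have e : dv a (fun x => f x * f x) =
        fun x => (dv a f x * dv a f x) * cm (f x) (dv a f x) := by
      funext x
      ext <;> simp [dv, cm_eq] <;> ring
    rw [e]
    exact PN_mul (ih (by omega) (hf.2 a)) (PN_anti (by omega) (PN_cm (PN_pred hf) (hf.2 a)))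

/-- cut-off by a homomorphism to `ZMod 2` -/
def cut (χ : K →+ ZMod 2) (f : K → Hs) : K → Hs := fun x => if χ x = 1 then f x else 1

lemma PN_cut (χ : K →+ ZMod 2) {n i : ℕ} {f : K → Hs} (hf : PN n (i + 1) f) :
    PN n i (cut χ f) := by
  have hval : ∀ {f : K → Hs} {i : ℕ}, (∀ x, f x ∈ F (i + 1)) → ∀ x, cut χ f x ∈ F i := by
    intro f i h x
    unfold cut
    split_ifs
    · exact F_anti (Nat.le_succ i) (h x)
    · exact one_mem _
  have h01 : ∀ t : ZMod 2, t = 0 ∨ t = 1 := by decide
  have h11 : (1 : ZMod 2) + 1 = 0 := by decide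
  have h10 : (0 : ZMod 2) ≠ 1 := by decide
  induction n generalizing i f with
  | zero => exact hval hf
  | succ n ih =>
    refine ⟨hval hf.1, fun a => ?_⟩
    rcases h01 (χ a) with ha | ha
    · have e : dv a (cut χ f) = cut χ (dv a f) := by
        funext x
        simp only [dv, cut, map_add, ha, add_zero]
        split_ifs <;> simp
      rw [e]
      exact ih (hf.2 a)
    · have e : dv a (cut χ f) = fun x => ((dv a f x * (cut χ (dv a f) x)⁻¹) * f x) *
          (cut χ (fun x => f x * f x) x)⁻¹ := by
        funext x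
        rcases h01 (χ x) with hx | hx
        · simp [dv, cut, map_add, ha, hx]
        · simp [dv, cut, map_add, ha, hx, h11]
      rw [e]
      refine PN_mul (PN_mul (PN_mul ?_ (PN_inv ?_)) ?_) (PN_inv ?_)
      · exact PN_anti (by omega) (hf.2 a)
      · exact ih (hf.2 a)
      · exact PN_pred hf
      · exact ih (PN_sq (by omega) (PN_pred hf))

lemma PN_cutL (L : List (K →+ ZMod 2)) {n i : ℕ} {g : Hs} (hg : g ∈ F (i + L.length)) :
    PN n i (fun x => if ∀ χ ∈ L, χ x = 1 then g else 1) := by
  induction L generalizing i with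
  | nil => simpa using PN_const (K := K) (i := i) (by simpa using hg) n
  | cons χ L ih =>
    have h1 : PN n (i + 1) (fun x => if ∀ χ ∈ L, χ x = 1 then g else 1) :=
      ih (by rwa [List.length_cons, ← add_assoc, add_right_comm] at hg)
    have e : (fun x => if ∀ χ' ∈ χ :: L, χ' x = 1 then g else 1) =
        cut χ (fun x => if ∀ χ ∈ L, χ x = 1 then g else 1) := by
      funext x
      simp only [cut, List.mem_cons, forall_eq_or_imp]
      by_cases h : χ x = 1 <;> simp [h]
    rw [e]
    exact PN_cut χ h1

end Hs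

end MP4077
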