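import Pool.Agent.Work.MP_4077b5_an.NotAbr
import Pool.Agent.Work.MP_4077b5_an.PolyMap

/-!
# The block function
-/

set_option linter.unusedSectionVars false

namespace MP4077

open MeasureTheory Filter Topology Hs

/-- degrees attached to the elements -/
def dg (g : Hs) : ℕ :=
  if g = gx then 10 else if g = gx ^ 4 then 14 else
    if g = gx ^ 2 * (gy ^ 4)⁻¹ ∨ g = gx ^ 2 * gy ^ 4 then 12 else 8

lemma dg_mem (g : Hs) : g ∈ F (dg g) := by
  unfold dg
  split_ifs with h1 h2 h3
  · rw [h1]; exact gx_mem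
  · rw [h2]; exact gx4_mem
  · rcases h3 with h | h
    · rw [h]; exact gu_mem
    · rw [h]; exact gv_mem
  · rw [F_top le_rfl]; trivial

lemma dg_le (g : Hs) : dg g ≤ 24 := by unfold dg; split_ifs <;> norm_num

lemma dg_pos (g : Hs) : 1 ≤ dg g := by unfold dg; split_ifs <;> norm_num

/-- one block -/
def bl (g : Hs) (y : Fin 24 → ZMod 2) : Hs :=
  if ∀ j : Fin (dg g), y (Fin.castLE (dg_le g) j) = 1 then g else 1

lemma bl_zero (g : Hs) : bl g 0 = 1 := by
  unfold bl
  rw [if_neg]
  intro h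
  have := h ⟨0, dg_pos g⟩
  revert this
  simp

/-- the coordinate group of a block -/
abbrev VV : Type := Hs → Fin 24 → ZMod 2

/-- the block function -/
noncomputable def bet (v : VV) : Hs :=
  ((Finset.univ : Finset Hs).toList.map (fun g => bl g (v g))).prod

lemma bet_single (g : Hs) (y : Fin 24 → ZMod 2) : bet (Pi.single g y) = bl g y := by
  unfold bet
  rw [List.prod_map_eq_pow_single g, List.count_eq_one_of_mem, pow_one, Pi.single_eq_same]
  · exact Finset.nodup_toList _
  · simp
  · intro a ha _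
    rw [Pi.single_eq_of_ne ha, bl_zero]

lemma bet_zero : bet 0 = 1 := by
  have := bet_single 1 0
  rw [Pi.single_zero] at this
  rw [this, bl_zero]

lemma cube_bet (g : Hs) : Cube bet g (dg g) := by
  refine ⟨fun j => Pi.single g (Pi.single (Fin.castLE (dg_le g) j) 1), fun S => ?_⟩
  have e : ∑ j ∈ S, (Pi.single g (Pi.single (Fin.castLE (dg_le g) j) 1) : VV) =
      Pi.single g (∑ j ∈ S, Pi.single (Fin.castLE (dg_le g) j) 1) := by
    rw [← AddMonoidHom.single_apply, map_sum]
    rfl
  rw [e, bet_single, bl]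
  have hk : ∀ k : Fin (dg g), (∑ j ∈ S, (Pi.single (Fin.castLE (dg_le g) j) 1 : Fin 24 → ZMod 2))
      (Fin.castLE (dg_le g) k) = if k ∈ S then 1 else 0 := by
    intro k
    rw [Finset.sum_apply]
    simp only [Pi.single_apply, (Fin.castLE_injective (dg_le g)).eq_iff]
    rw [Finset.sum_ite_eq]
  congr 1
  rw [eq_iff_iff]
  constructor
  · intro h
    ext k
    simp only [Finset.mem_univ, iff_true]
    have := h k
    rw [hk] at this
    by_contra hk'
    rw [if_neg hk'] at this
    exact absurd this (by decide)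
  · rintro rfl k
    rw [hk, if_pos (Finset.mem_univ _)]

lemma bet_surj : Function.Surjective bet := by
  intro g
  obtain ⟨v, hv⟩ := cube_bet g
  exact ⟨_, by rw [hv Finset.univ, if_pos rfl]⟩

/-- coordinate homomorphisms -/
def coo (n : ℕ) (g : Hs) (k : Fin 24) : (ℕ → VV) →+ ZMod 2 where
  toFun x := x n g k
  map_zero' := rfl
  map_add' _ _ := rfl

lemma PN_bl (n : ℕ) (g : Hs) (m : ℕ) : PN m 0 (fun x : ℕ → VV => bl g (x n g)) := by
  have h := PN_cutL (K := ℕ → VV) (n := m) (i := 0)
    ((List.finRange (dg g)).map (fun j => coo n g (Fin.castLE (dg_le g) j))) (g := g)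
    (by rw [List.length_map, List.length_finRange, zero_add]; exact dg_mem g)
  convert h using 2 with x
  unfold bl
  congr 1
  simp [coo]

lemma PN_bet (n m : ℕ) : PN m 0 (fun x : ℕ → VV => bet (x n)) := by
  unfold bet
  generalize (Finset.univ : Finset Hs).toList = L
  induction L with
  | nil => simpa using PN_one m 0
  | cons g L ih =>
    simp only [List.map_cons, List.prod_cons]
    exact PN_mul (PN_bl n g m) ih

lemma PN_Bn (N m : ℕ) : PN m 0 (Bn bet N) := by
  induction N with
  | zero => exact PN_one m 0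
  | succ N ih => exact PN_mul ih (PN_bet N m)

lemma PN_rho (γ : ℕ →₀ VV) (m : ℕ) : PN m 1 (rho bet γ) :=
  (PN_Bn (bd γ) (m + 1)).2 (⇑γ)

lemma erg_bet : IsErgodic (mX VV Hs) (Tr bet) :=
  ergodic_Tr bet_zero bet_surj fun g => ⟨dg g, dg_pos g, cube_bet g⟩

lemma notAbr_bet : ¬ IsAbramov (mX VV Hs) (Tr bet) 23 := by
  have h1 : dg gy = 8 := by decide
  have h2 : dg gx = 10 := by decide
  have h3 : dg (gx ^ 2 * (gy ^ 4)⁻¹) = 12 := by decide
  have h4 : dg (gx ^ 2 * gy ^ 4) = 12 := by decide
  have h5 : dg (gx ^ 4) = 14 := by decide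
  exact not_abramov bet_zero bet_surj (h1 ▸ cube_bet gy) (h2 ▸ cube_bet gx) (h3 ▸ cube_bet _)
    (h4 ▸ cube_bet _) (h5 ▸ cube_bet _)

end MP4077
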