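import Pool.Agent.Work.MP_4077b5_an.Key

/-!
# Ergodicity of the skew product
-/

set_option linter.unusedSectionVars false

namespace MP4077

open MeasureTheory Filter Topology

section mono
variable {Γ : Type} [AddCommGroup Γ] {X : Type} [MeasurableSpace X] {μ : Measure X}
  {T : Γ → X → X}

lemma PolyLT_succ (hT : IsAction μ T) {n : ℕ} {f : X → UnitAddCircle} (hf : PolyLT μ T n f) :
    PolyLT μ T (n + 1) f := by
  induction n generalizing f with
  | zero =>
    intro γ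
    have hf' : ∀ᵐ x ∂μ, f x = 0 := hf
    have h2 : ∀ᵐ x ∂μ, f (T γ x) = 0 := (hT.mp γ).quasiMeasurePreserving.ae hf'
    change ∀ᵐ x ∂μ, der T γ f x = 0
    filter_upwards [hf', h2] with x h3 h4
    simp [der, h3, h4]
  | succ n ih => exact fun γ => ih (hf γ)

lemma PolyLT_mono (hT : IsAction μ T) {n m : ℕ} (hnm : n ≤ m) {f : X → UnitAddCircle}
    (hf : PolyLT μ T n f) : PolyLT μ T m f := by
  induction hnm with
  | refl => exact hf
  | step _ ih => exact PolyLT_succ hT ih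

end mono

section erg
variable {V G : Type} [AddCommGroup V] [Fintype V] [TopologicalSpace V] [DiscreteTopology V]
  [MeasurableSpace V] [DiscreteMeasurableSpace V]
  [Group G] [Fintype G] [TopologicalSpace G] [DiscreteTopology G]
  [MeasurableSpace G] [DiscreteMeasurableSpace G]

lemma ae_fiber {p : (ℕ → V) × G → Prop} (h : ∀ᵐ q ∂(mX V G), p q) :
    ∀ᵐ x ∂(mK V), ∀ c, p (x, c) := by
  have := Measure.ae_ae_of_ae_prod h
  filter_upwards [this] with x hx
  exact ae_unif.1 hx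

lemma ae_of_fiber {p : (ℕ → V) × G → Prop} (hp : MeasurableSet {q | p q})
    (h : ∀ᵐ x ∂(mK V), ∀ c, p (x, c)) : ∀ᵐ q ∂(mX V G), p q := by
  rw [mX, Measure.ae_prod_iff_ae_ae hp]
  filter_upwards [h] with x hx
  exact Eventually.of_forall hx

/-- truncation -/
noncomputable def tru (x : ℕ → V) (n : ℕ) : ℕ →₀ V :=
  Finsupp.onFinset (Finset.range n) (fun m => if m < n then x m else 0) (by
    intro m hm
    rw [Finset.mem_range]
    by_contra h
    exact hm (if_neg h))

lemma dense_fin : DenseRange (fun γ : ℕ →₀ V => (⇑γ : ℕ → V)) := by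
  intro x
  refine mem_closure_of_tendsto (f := fun n => (⇑(tru x n) : ℕ → V)) (b := atTop) ?_
    (Eventually.of_forall fun n => ⟨tru x n, rfl⟩)
  rw [tendsto_pi_nhds]
  intro m
  refine tendsto_const_nhds.congr' ?_
  filter_upwards [eventually_gt_atTop m] with n hn
  simp [tru, hn]

theorem ergodic_Tr {β : V → G} (h0 : β 0 = 1) (hsurj : Function.Surjective β)
    (hc : ∀ g, ∃ d, 1 ≤ d ∧ Cube β g d) : IsErgodic (mX V G) (Tr β) := by
  classical
  intro A hA hinv
  -- the indicator as a circle valued function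
  let f : (ℕ → V) × G → UnitAddCircle := A.indicator fun _ => ((1 / 2 : ℝ) : UnitAddCircle)
  have hne : ((1 / 2 : ℝ) : UnitAddCircle) ≠ 0 := by
    intro h
    rw [AddCircle.coe_eq_zero_iff] at h
    obtain ⟨n, hn⟩ := h
    have h2 : (2 * n : ℝ) = 1 := by
      have : (n : ℝ) = 1 / 2 := by simpa using hn
      rw [this]; norm_num
    have h3 : 2 * n = (1 : ℤ) := by exact_mod_cast h2
    omega
  have hfm : Measurable f := measurable_const.indicator hA
  have hfA : ∀ q q', f q - f q' = 0 → (q ∈ A ↔ q' ∈ A) := by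
    intro q q' h
    rw [sub_eq_zero] at h
    have e1 : ∀ q, q ∈ A → f q = ((1 / 2 : ℝ) : UnitAddCircle) := fun q h => Set.indicator_of_mem h _
    have e2 : ∀ q, q ∉ A → f q = 0 := fun q h => Set.indicator_of_notMem h _
    by_cases h1 : q ∈ A <;> by_cases h2 : q' ∈ A
    · simp [h1, h2]
    · rw [e1 q h1, e2 q' h2] at h; exact absurd h hne
    · rw [e2 q h1, e1 q' h2] at h; exact absurd h.symm hne
    · simp [h1, h2]
  have hP : PolyLT (mX V G) (Tr β) 1 f := by
    intro γ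
    change ∀ᵐ x ∂(mX V G), der (Tr β) γ f x = 0
    filter_upwards [hinv γ] with q hq
    have : Tr β γ q ∈ A ↔ q ∈ A := iff_of_eq hq
    by_cases h : q ∈ A
    · simp [der, f, h, this.2 h]
    · have h' : Tr β γ q ∉ A := fun h'' => h (this.1 h'')
      simp [der, f, h, h']
  have hR : ∀ g, ∀ᵐ q ∂(mX V G), (Rr g q ∈ A ↔ q ∈ A) := by
    intro g
    obtain ⟨d, hd, hcu⟩ := hc g
    filter_upwards [key_base h0 hsurj hd hcu hfm (PolyLT_mono (isAction_Tr β) hd hP)] with q hq
    exact hfA _ _ hq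
  -- pass to the base
  let A1 : Set (ℕ → V) := {x | (x, (1 : G)) ∈ A}
  have hA1 : MeasurableSet A1 := hA.preimage (by fun_prop)
  have hR' : ∀ᵐ x ∂(mK V), ∀ c : G, ((x, c) ∈ A ↔ x ∈ A1) := by
    have h1 : ∀ᵐ x ∂(mK V), ∀ g : G, ∀ c : G, (Rr g (x, c) ∈ A ↔ (x, c) ∈ A) :=
      eventually_all.2 fun g => ae_fiber (p := fun q => (Rr g q ∈ A ↔ q ∈ A)) (hR g)
    filter_upwards [h1] with x hx c
    have := hx c 1
    simpa [Rr, A1] using this
  have hinv1 : ∀ γ : ℕ →₀ V, (fun x : ℕ → V => (⇑γ : ℕ → V) +ᵥ x) ⁻¹' A1 =ᵐ[mK V] A1 := by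
    intro γ
    have h1 : ∀ᵐ x ∂(mK V), ∀ c : G, (((x + ⇑γ : ℕ → V), c) ∈ A ↔ (x + ⇑γ : ℕ → V) ∈ A1) :=
      (measurePreserving_add_right (mK V) (⇑γ : ℕ → V)).quasiMeasurePreserving.ae
        (p := fun x => ∀ c : G, ((x, c) ∈ A ↔ x ∈ A1)) hR'
    have h2 : ∀ᵐ x ∂(mK V), ∀ c : G, (Tr β γ (x, c) ∈ A) = ((x, c) ∈ A) :=
      ae_fiber (p := fun q => (Tr β γ q ∈ A) = (q ∈ A)) (hinv γ)
    filter_upwards [h1, h2, hR'] with x h3 h4 h5
    have e : (⇑γ : ℕ → V) +ᵥ x = x + ⇑γ := by rw [vadd_eq_add, add_comm]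
    change ((⇑γ : ℕ → V) +ᵥ x ∈ A1) = (x ∈ A1)
    rw [e]
    apply propext
    have h6 := h4 1
    simp only [Tr] at h6
    rw [← h3 (rho β γ x * 1), ← h5 1, ← iff_of_eq h6]
  have hconst : EventuallyConst A1 (ae (mK V)) := by
    refine aeconst_of_dense_setOfPred_preimage_vadd_ae (M := (ℕ → V)) hA1.nullMeasurableSet ?_
    refine (dense_fin (V := V)).mono ?_
    rintro _ ⟨γ, rfl⟩
    exact hinv1 γ
  rw [eventuallyConst_set] at hconst
  rcases hconst with h | h
  · right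
    have : ∀ᵐ q ∂(mX V G), q ∈ A := by
      apply ae_of_fiber hA
      filter_upwards [h, hR'] with x h1 h2 c
      exact (h2 c).2 h1
    exact this
  · left
    have : ∀ᵐ q ∂(mX V G), q ∉ A := by
      apply ae_of_fiber hA.compl
      filter_upwards [h, hR'] with x h1 h2 c
      exact fun h3 => h1 ((h2 c).1 h3)
    simpa [ae_iff] using this

end erg

end MP4077
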