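import Mathlib

/-!
# The group `Heis (ZMod 16)` with a filtration of degree 23
-/

namespace MP4077

/-- The Heisenberg group over `ZMod 16`. -/
@[ext] structure Hs where
  i : ZMod 16
  j : ZMod 16
  l : ZMod 16
deriving DecidableEq

namespace Hs

/-- underlying triple -/
def equivProd : Hs ≃ ZMod 16 × ZMod 16 × ZMod 16 where
  toFun a := (a.i, a.j, a.l)
  invFun p := ⟨p.1, p.2.1, p.2.2⟩
  left_inv _ := rfl
  right_inv _ := rfl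

instance : Fintype Hs := Fintype.ofEquiv _ equivProd.symm
instance : Nonempty Hs := ⟨⟨0, 0, 0⟩⟩

instance : Mul Hs := ⟨fun a b => ⟨a.i + b.i, a.j + b.j, a.l + b.l + a.i * b.j⟩⟩
instance : One Hs := ⟨⟨0, 0, 0⟩⟩
instance : Inv Hs := ⟨fun a => ⟨-a.i, -a.j, -a.l + a.i * a.j⟩⟩

@[simp] lemma mul_i (a b : Hs) : (a * b).i = a.i + b.i := rfl
@[simp] lemma mul_j (a b : Hs) : (a * b).j = a.j + b.j := rfl
@[simp] lemma mul_l (a b : Hs) : (a * b).l = a.l + b.l + a.i * b.j := rfl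
@[simp] lemma one_i : (1 : Hs).i = 0 := rfl
@[simp] lemma one_j : (1 : Hs).j = 0 := rfl
@[simp] lemma one_l : (1 : Hs).l = 0 := rfl
@[simp] lemma inv_i (a : Hs) : (a⁻¹).i = -a.i := rfl
@[simp] lemma inv_j (a : Hs) : (a⁻¹).j = -a.j := rfl
@[simp] lemma inv_l (a : Hs) : (a⁻¹).l = -a.l + a.i * a.j := rfl

instance : Group Hs :=
  Group.ofLeftAxioms
    (fun a b c => by ext <;> simp <;> ring)
    (fun a => by ext <;> simp)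
    (fun a => by ext <;> simp)

/-- Group commutator `a b a⁻¹ b⁻¹`. -/
def cm (a b : Hs) : Hs := a * b * a⁻¹ * b⁻¹

lemma cm_eq (a b : Hs) : cm a b = ⟨0, 0, a.i * b.j - b.i * a.j⟩ := by
  ext <;> simp [cm] <;> ring

/-! ### The table of the filtration -/

/-- first generator (mod centre), level `s` -/
def u1 (s : ℕ) : ZMod 16 := [1, 1, 1, 1, 1, 1, 1, 1, 1, 1, 1, 2, 2, 4, 4, 8].getD s 0
def u2 (s : ℕ) : ZMod 16 := [0, 0, 0, 0, 0, 0, 0, 0, 0, 0, 0, 0, 4, 0, 0, 0].getD s 0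
def v1 (s : ℕ) : ZMod 16 := [0, 0, 0, 0, 0, 0, 0, 0, 0, 0, 0, 0, 4, 0, 0, 0].getD s 0
def v2 (s : ℕ) : ZMod 16 := [1, 1, 1, 1, 1, 1, 1, 1, 1, 2, 4, 4, 0, 8, 0, 0].getD s 0
def w (s : ℕ) : ZMod 16 :=
  [1, 1, 1, 1, 1, 1, 1, 1, 1, 1, 1, 1, 1, 1, 1, 1, 1, 1, 1, 2, 2, 4, 4, 8].getD s 0

lemma u1_ge {s : ℕ} (h : 16 ≤ s) : u1 s = 0 := List.getD_eq_default _ _ (by simpa using h)
lemma u2_ge {s : ℕ} (h : 16 ≤ s) : u2 s = 0 := List.getD_eq_default _ _ (by simpa using h)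
lemma v1_ge {s : ℕ} (h : 16 ≤ s) : v1 s = 0 := List.getD_eq_default _ _ (by simpa using h)
lemma v2_ge {s : ℕ} (h : 16 ≤ s) : v2 s = 0 := List.getD_eq_default _ _ (by simpa using h)
lemma w_ge {s : ℕ} (h : 24 ≤ s) : w s = 0 := List.getD_eq_default _ _ (by simpa using h)

/-- membership in level `s` -/
def Mem (s : ℕ) (g : Hs) : Prop :=
  (∃ a b : ZMod 16, g.i = a * u1 s + b * v1 s ∧ g.j = a * u2 s + b * v2 s) ∧
    ∃ e : ZMod 16, g.l = e * w s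

lemma tab_mul (s : ℕ) : (∃ e : ZMod 16, u1 s * u2 s = e * w s) ∧ (∃ e : ZMod 16, u1 s * v2 s = e * w s)
    ∧ (∃ e : ZMod 16, v1 s * u2 s = e * w s) ∧ (∃ e : ZMod 16, v1 s * v2 s = e * w s) := by
  rcases lt_or_ge s 16 with h | h
  · interval_cases s <;> decide
  · simp [u1_ge h, u2_ge h, v1_ge h, v2_ge h]
    exact ⟨0, by simp⟩

/-- the wedge table -/
lemma tab_wedge (s t : ℕ) :
    (∃ e : ZMod 16, u1 s * u2 t - u1 t * u2 s = e * w (s + t)) ∧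
    (∃ e : ZMod 16, u1 s * v2 t - v1 t * u2 s = e * w (s + t)) ∧
    (∃ e : ZMod 16, v1 s * u2 t - u1 t * v2 s = e * w (s + t)) ∧
    (∃ e : ZMod 16, v1 s * v2 t - v1 t * v2 s = e * w (s + t)) := by
  rcases lt_or_ge s 16 with h | h
  · rcases lt_or_ge t 16 with h' | h'
    · have key : ∀ s t : Fin 16,
        (∃ e : ZMod 16, u1 s * u2 t - u1 t * u2 s = e * w (s + t)) ∧
        (∃ e : ZMod 16, u1 s * v2 t - v1 t * u2 s = e * w (s + t)) ∧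
        (∃ e : ZMod 16, v1 s * u2 t - u1 t * v2 s = e * w (s + t)) ∧
        (∃ e : ZMod 16, v1 s * v2 t - v1 t * v2 s = e * w (s + t)) := by
        decide +kernel
      exact key ⟨s, h⟩ ⟨t, h'⟩
    · simp only [u1_ge h', u2_ge h', v1_ge h', v2_ge h']
      refine ⟨⟨0, by ring⟩, ⟨0, by ring⟩, ⟨0, by ring⟩, ⟨0, by ring⟩⟩
  · simp only [u1_ge h, u2_ge h, v1_ge h, v2_ge h]
    refine ⟨⟨0, by ring⟩, ⟨0, by ring⟩, ⟨0, by ring⟩, ⟨0, by ring⟩⟩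

lemma tab_anti (s : ℕ) :
    (∃ a b : ZMod 16, u1 (s + 1) = a * u1 s + b * v1 s ∧ u2 (s + 1) = a * u2 s + b * v2 s) ∧
    (∃ a b : ZMod 16, v1 (s + 1) = a * u1 s + b * v1 s ∧ v2 (s + 1) = a * u2 s + b * v2 s) ∧
    (∃ e : ZMod 16, w (s + 1) = e * w s) := by
  rcases lt_or_ge s 24 with h | h
  · have key : ∀ s : Fin 24,
      (∃ a b : ZMod 16, u1 (s + 1) = a * u1 s + b * v1 s ∧ u2 (s + 1) = a * u2 s + b * v2 s) ∧
      (∃ a b : ZMod 16, v1 (s + 1) = a * u1 s + b * v1 s ∧ v2 (s + 1) = a * u2 s + b * v2 s) ∧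
      (∃ e : ZMod 16, w (s + 1) = e * w s) := by
      decide +kernel
    exact key ⟨s, h⟩
  · have h1 : 16 ≤ s + 1 := by omega
    have h2 : 24 ≤ s + 1 := by omega
    simp only [u1_ge h1, u2_ge h1, v1_ge h1, v2_ge h1, w_ge h2]
    refine ⟨⟨0, 0, by ring, by ring⟩, ⟨0, 0, by ring, by ring⟩, ⟨0, by ring⟩⟩

lemma tab_sq (s : ℕ) :
    (∃ a b : ZMod 16, 2 * u1 s = a * u1 (s + 1) + b * v1 (s + 1) ∧
      2 * u2 s = a * u2 (s + 1) + b * v2 (s + 1)) ∧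
    (∃ a b : ZMod 16, 2 * v1 s = a * u1 (s + 1) + b * v1 (s + 1) ∧
      2 * v2 s = a * u2 (s + 1) + b * v2 (s + 1)) ∧
    (∃ e : ZMod 16, 2 * w s = e * w (s + 1)) ∧
    (∃ e : ZMod 16, u1 s * u2 s = e * w (s + 1)) ∧
    (∃ e : ZMod 16, u1 s * v2 s = e * w (s + 1)) ∧
    (∃ e : ZMod 16, v1 s * u2 s = e * w (s + 1)) ∧
    (∃ e : ZMod 16, v1 s * v2 s = e * w (s + 1)) := by
  rcases lt_or_ge s 24 with h | h
  · have key : ∀ s : Fin 24,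
      (∃ a b : ZMod 16, 2 * u1 s = a * u1 (s + 1) + b * v1 (s + 1) ∧
        2 * u2 s = a * u2 (s + 1) + b * v2 (s + 1)) ∧
      (∃ a b : ZMod 16, 2 * v1 s = a * u1 (s + 1) + b * v1 (s + 1) ∧
        2 * v2 s = a * u2 (s + 1) + b * v2 (s + 1)) ∧
      (∃ e : ZMod 16, 2 * w s = e * w (s + 1)) ∧
      (∃ e : ZMod 16, u1 s * u2 s = e * w (s + 1)) ∧
      (∃ e : ZMod 16, u1 s * v2 s = e * w (s + 1)) ∧
      (∃ e : ZMod 16, v1 s * u2 s = e * w (s + 1)) ∧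
      (∃ e : ZMod 16, v1 s * v2 s = e * w (s + 1)) := by
      decide +kernel
    exact key ⟨s, h⟩
  · have h1 : 16 ≤ s := by omega
    simp only [u1_ge h1, u2_ge h1, v1_ge h1, v2_ge h1, w_ge h]
    refine ⟨⟨0, 0, by ring, by ring⟩, ⟨0, 0, by ring, by ring⟩, ⟨0, by ring⟩, ⟨0, by ring⟩,
      ⟨0, by ring⟩, ⟨0, by ring⟩, ⟨0, by ring⟩⟩

/-- Level `s` of the filtration. -/
def F (s : ℕ) : Subgroup Hs where
  carrier := {g | Mem s g}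
  one_mem' := ⟨⟨0, 0, by simp⟩, ⟨0, by simp⟩⟩
  mul_mem' := by
    rintro g h ⟨⟨a, b, h1, h2⟩, e, h3⟩ ⟨⟨a', b', h1', h2'⟩, e', h3'⟩
    obtain ⟨⟨x1, hx1⟩, ⟨x2, hx2⟩, ⟨x3, hx3⟩, ⟨x4, hx4⟩⟩ := tab_mul s
    refine ⟨⟨a + a', b + b', ?_, ?_⟩,
      ⟨e + e' + a * a' * x1 + a * b' * x2 + b * a' * x3 + b * b' * x4, ?_⟩⟩
    · rw [mul_i, h1, h1']; ring
    · rw [mul_j, h2, h2']; ring
    · rw [mul_l, h3, h3', h1, h2']
      linear_combination a * a' * hx1 + a * b' * hx2 + b * a' * hx3 + b * b' * hx4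
  inv_mem' := by
    rintro g ⟨⟨a, b, h1, h2⟩, e, h3⟩
    obtain ⟨⟨x1, hx1⟩, ⟨x2, hx2⟩, ⟨x3, hx3⟩, ⟨x4, hx4⟩⟩ := tab_mul s
    refine ⟨⟨-a, -b, ?_, ?_⟩, ⟨-e + a * a * x1 + a * b * x2 + b * a * x3 + b * b * x4, ?_⟩⟩
    · rw [inv_i, h1]; ring
    · rw [inv_j, h2]; ring
    · rw [inv_l, h3, h1, h2]
      linear_combination a * a * hx1 + a * b * hx2 + b * a * hx3 + b * b * hx4

lemma mem_F {s : ℕ} {g : Hs} : g ∈ F s ↔ Mem s g := Iff.rfl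

lemma F_anti : Antitone F := by
  refine antitone_nat_of_succ_le fun s g hg => ?_
  rw [mem_F] at hg ⊢
  obtain ⟨⟨a, b, h1, h2⟩, e, h3⟩ := hg
  obtain ⟨⟨p, q, hp, hq⟩, ⟨r, t, hr, ht⟩, ⟨e', he'⟩⟩ := tab_anti s
  refine ⟨⟨a * p + b * r, a * q + b * t, ?_, ?_⟩, ⟨e * e', ?_⟩⟩
  · rw [h1, hp, hr]; ring
  · rw [h2, hq, ht]; ring
  · rw [h3, he']; ring

lemma cm_mem {s t : ℕ} {g h : Hs} (hg : g ∈ F s) (hh : h ∈ F t) : cm g h ∈ F (s + t) := by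
  obtain ⟨⟨a, b, h1, h2⟩, e, h3⟩ := hg
  obtain ⟨⟨a', b', h1', h2'⟩, e', h3'⟩ := hh
  obtain ⟨⟨x1, hx1⟩, ⟨x2, hx2⟩, ⟨x3, hx3⟩, ⟨x4, hx4⟩⟩ := tab_wedge s t
  rw [cm_eq, mem_F]
  refine ⟨⟨0, 0, by simp⟩, ⟨a * a' * x1 + a * b' * x2 + b * a' * x3 + b * b' * x4, ?_⟩⟩
  change g.i * h.j - h.i * g.j = _
  rw [h1, h2, h1', h2']
  linear_combination a * a' * hx1 + a * b' * hx2 + b * a' * hx3 + b * b' * hx4

lemma sq_mem {s : ℕ} {g : Hs} (hg : g ∈ F s) : g * g ∈ F (s + 1) := by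
  obtain ⟨⟨a, b, h1, h2⟩, e, h3⟩ := hg
  obtain ⟨⟨p, q, hp, hq⟩, ⟨r, t, hr, ht⟩, ⟨e', he'⟩, ⟨x1, hx1⟩, ⟨x2, hx2⟩, ⟨x3, hx3⟩,
    ⟨x4, hx4⟩⟩ := tab_sq s
  refine ⟨⟨a * p + b * r, a * q + b * t, ?_, ?_⟩,
    ⟨e * e' + a * a * x1 + a * b * x2 + b * a * x3 + b * b * x4, ?_⟩⟩
  · rw [mul_i, h1]; linear_combination a * hp + b * hr
  · rw [mul_j, h2]; linear_combination a * hq + b * ht
  · rw [mul_l, h3, h1, h2]
    linear_combination e * he' + a * a * hx1 + a * b * hx2 + b * a * hx3 + b * b * hx4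

lemma F_top {s : ℕ} (hs : s ≤ 8) : F s = ⊤ := by
  have h8 : F 8 = ⊤ := by
    rw [eq_top_iff]
    intro g _
    exact ⟨⟨g.i, g.j, by simp [u1, v1], by simp [u2, v2]⟩, ⟨g.l, by simp [w]⟩⟩
  exact top_le_iff.1 (h8 ▸ F_anti hs)

lemma F_bot {s : ℕ} (hs : 24 ≤ s) : F s = ⊥ := by
  rw [eq_bot_iff]
  intro g hg
  obtain ⟨⟨a, b, h1, h2⟩, e, h3⟩ := hg
  have h16 : 16 ≤ s := by omega
  rw [u1_ge h16, v1_ge h16] at h1
  rw [u2_ge h16, v2_ge h16] at h2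
  rw [w_ge hs] at h3
  rw [Subgroup.mem_bot]
  ext
  · simpa using h1
  · simpa using h2
  · simpa using h3

/-- the standard generators -/
def gx : Hs := ⟨1, 0, 0⟩
def gy : Hs := ⟨0, 1, 0⟩
def gz : Hs := ⟨0, 0, 1⟩

lemma gy_mem : gy ∈ F 8 := by rw [F_top le_rfl]; trivial
lemma gx_mem8 : gx ∈ F 8 := by rw [F_top le_rfl]; trivial
lemma gx_mem : gx ∈ F 10 := ⟨⟨1, 0, by decide⟩, ⟨0, by decide⟩⟩
lemma gx4_mem : gx ^ 4 ∈ F 14 := ⟨⟨1, 0, by decide⟩, ⟨0, by decide⟩⟩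
lemma gu_mem : gx ^ 2 * (gy ^ 4)⁻¹ ∈ F 12 := ⟨⟨3, 15, by decide⟩, ⟨8, by decide⟩⟩
lemma gv_mem : gx ^ 2 * gy ^ 4 ∈ F 12 := ⟨⟨1, 0, by decide⟩, ⟨8, by decide⟩⟩

end Hs

end MP4077
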