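import Pool.Agent.Work.MP_4077b5_an.Skew

/-!
# The key lemma: fibre differences lower the degree
-/

set_option linter.unusedSectionVars false

namespace MP4077

open MeasureTheory Filter Topology

section alt
variable {Γ : Type} [AddCommGroup Γ] {X : Type} [MeasurableSpace X] {μ : Measure X}
  {T : Γ → X → X}

lemma alt_zero (hT : IsAction μ T) {ι : Type} [DecidableEq ι] (c : ι → Γ) (s : Finset ι)
    {f : X → UnitAddCircle} (hf : PolyLT μ T s.card f) :
    ∀ᵐ q ∂μ, ∑ t ∈ s.powerset, (-1 : ℤ) ^ t.card • f (T (∑ j ∈ t, c j) q) = 0 := by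
  induction s using Finset.induction_on generalizing f with
  | empty =>
    have hf' : ∀ᵐ x ∂μ, f x = 0 := hf
    filter_upwards [hf'] with q hq
    simp [hT.zero, hq]
  | insert a s ha ih =>
    rw [Finset.card_insert_of_notMem ha] at hf
    filter_upwards [ih (hf (c a))] with q hq
    rw [Finset.sum_powerset_insert ha, ← neg_eq_zero, ← hq, ← Finset.sum_add_distrib,
      ← Finset.sum_neg_distrib]
    refine Finset.sum_congr rfl fun t ht => ?_
    have hat : a ∉ t := fun h => ha (Finset.mem_powerset.1 ht h)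
    rw [Finset.card_insert_of_notMem hat, Finset.sum_insert hat, hT.add, der, pow_succ, smul_sub]
    simp only [mul_neg, mul_one, neg_smul]
    abel

end alt

/-- distance to zero in the circle -/
noncomputable def NN (s : UnitAddCircle) : ENNReal := ‖(AddCircle.toCircle s : ℂ) - 1‖ₑ

lemma NN_zero : NN 0 = 0 := by simp [NN]

lemma NN_eq_zero {s : UnitAddCircle} (h : NN s = 0) : s = 0 := by
  unfold NN at h
  rw [enorm_eq_zero, sub_eq_zero] at h
  apply AddCircle.injective_toCircle one_ne_zero
  rw [AddCircle.toCircle_zero]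
  exact Circle.ext (by simpa using h)

lemma enorm_ec_sub (s t : UnitAddCircle) :
    ‖(AddCircle.toCircle s : ℂ) - (AddCircle.toCircle t : ℂ)‖ₑ = NN (s - t) := by
  have h : (AddCircle.toCircle s : ℂ) - (AddCircle.toCircle t : ℂ) =
      (AddCircle.toCircle t : ℂ) * ((AddCircle.toCircle (s - t) : ℂ) - 1) := by
    have : AddCircle.toCircle s = AddCircle.toCircle t * AddCircle.toCircle (s - t) := by
      rw [← AddCircle.toCircle_add]; congr 1; abel
    rw [this]; push_cast; ring
  rw [h, enorm_mul]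
  have h1 : ‖(AddCircle.toCircle t : ℂ)‖ₑ = 1 := by
    rw [← ofReal_norm, Circle.norm_coe]; simp
  rw [h1, one_mul, NN]

lemma NN_add (s t : UnitAddCircle) : NN (s + t) ≤ NN s + NN t := by
  have h : (AddCircle.toCircle (s + t) : ℂ) - 1 =
      ((AddCircle.toCircle (s + t) : ℂ) - (AddCircle.toCircle t : ℂ)) +
        ((AddCircle.toCircle t : ℂ) - 1) := by ring
  calc NN (s + t) = ‖((AddCircle.toCircle (s + t) : ℂ) - (AddCircle.toCircle t : ℂ)) +
        ((AddCircle.toCircle t : ℂ) - 1)‖ₑ := by rw [← h, NN]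
    _ ≤ _ := enorm_add_le _ _
    _ = _ := by rw [enorm_ec_sub, add_sub_cancel_right]; rfl

lemma NN_neg (s : UnitAddCircle) : NN (-s) = NN s := by
  have := enorm_ec_sub 0 s
  rw [zero_sub, AddCircle.toCircle_zero] at this
  rw [← this, ← enorm_neg, NN]; congr 1; simp

lemma NN_sum {ι : Type} (s : Finset ι) (f : ι → UnitAddCircle) :
    NN (∑ i ∈ s, f i) ≤ ∑ i ∈ s, NN (f i) := by
  classical
  induction s using Finset.induction_on with
  | empty => simp [NN_zero]
  | insert a s ha ih =>
    rw [Finset.sum_insert ha, Finset.sum_insert ha]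
    exact (NN_add _ _).trans (by gcongr)

lemma NN_sign (n : ℕ) (s : UnitAddCircle) : NN ((-1 : ℤ) ^ n • s) = NN s := by
  rcases neg_one_pow_eq_or ℤ n with h | h <;> rw [h]
  · simp
  · rw [neg_smul, one_smul, NN_neg]

lemma meas_NN {X : Type} [MeasurableSpace X] {f : X → UnitAddCircle} (hf : Measurable f) :
    Measurable fun q => NN (f q) :=
  ((meas_ec hf).sub measurable_const).enorm

section key
variable {V G : Type} [AddCommGroup V] [Fintype V] [TopologicalSpace V] [DiscreteTopology V]
  [MeasurableSpace V] [DiscreteMeasurableSpace V]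
  [Group G] [Fintype G] [TopologicalSpace G] [DiscreteTopology G]
  [MeasurableSpace G] [DiscreteMeasurableSpace G]

/-- the cube property of the block function -/
def Cube (β : V → G) (g : G) (d : ℕ) : Prop :=
  ∃ v : Fin d → V, ∀ S : Finset (Fin d), β (∑ j ∈ S, v j) = if S = Finset.univ then g else 1

/-- the set `A_n` -/
def An (β : V → G) (n : ℕ) : Set ((ℕ → V) × G) := {q | q.1 n = 0 ∧ q.2 = Bn β n q.1}

lemma meas_An (β : V → G) (n : ℕ) : MeasurableSet (An β n) := by
  apply IsClosed.measurableSet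
  exact (isClosed_eq ((continuous_apply n).comp continuous_fst) continuous_const).inter
    (isClosed_eq continuous_snd ((cont_Bn β n).comp continuous_fst))

lemma Tr_block {β : V → G} (h0 : β 0 = 1) {n : ℕ} {q : (ℕ → V) × G} (hq : q ∈ An β n) (v : V) :
    Tr β (Finsupp.single n v) q = Vt (⇑(Finsupp.single n v)) (Rr (β v) q) := by
  obtain ⟨x, c⟩ := q
  obtain ⟨hx, hc⟩ := hq
  simp only at hx hc
  have hs : ∀ m, n + 1 ≤ m → (Finsupp.single n v) m = 0 := fun m hm => by
    rw [Finsupp.single_apply, if_neg (by omega)]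
  have hb : Bn β n (x + ⇑(Finsupp.single n v)) = Bn β n x := Bn_congr β n fun m hm => by
    rw [Pi.add_apply, Finsupp.single_apply, if_neg (by omega), add_zero]
  have hr : rho β (Finsupp.single n v) x = Bn β n x * β v * (Bn β n x)⁻¹ := by
    rw [rho_eq β _ x hs, Bn, Bn, hb, hx, h0]
    simp [hx]
  simp only [Tr, Vt, Rr, hr, hc]
  simp

lemma An_bound {β : V → G} (h0 : β 0 = 1) {g : G} {d : ℕ} (hd : 1 ≤ d) {v : Fin d → V}
    (hv : ∀ S : Finset (Fin d), β (∑ j ∈ S, v j) = if S = Finset.univ then g else 1)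
    {f : (ℕ → V) × G → UnitAddCircle} (hf : Measurable f)
    (hP : PolyLT (mX V G) (Tr β) d f) (n : ℕ) :
    ∫⁻ q in An β n, NN (f (Rr g q) - f q) ∂(mX V G) ≤
      ∑ t ∈ (Finset.univ : Finset (Fin d)).powerset, eps f (⇑(Finsupp.single n (∑ j ∈ t, v j))) := by
  have hP' : PolyLT (mX V G) (Tr β) (Finset.univ : Finset (Fin d)).card f := by
    rwa [Finset.card_fin]
  have hz := alt_zero (isAction_Tr β) (fun j => Finsupp.single n (v j)) Finset.univ hP'
  -- pointwise bound
  have hpt : ∀ᵐ q ∂(mX V G), q ∈ An β n → NN (f (Rr g q) - f q) ≤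
      ∑ t ∈ (Finset.univ : Finset (Fin d)).powerset,
        NN (f (Vt (⇑(Finsupp.single n (∑ j ∈ t, v j))) (Rr (β (∑ j ∈ t, v j)) q)) -
          f (Rr (β (∑ j ∈ t, v j)) q)) := by
    filter_upwards [hz] with q hq hA
    have e1 : ∀ t : Finset (Fin d), Tr β (∑ j ∈ t, Finsupp.single n (v j)) q =
        Vt (⇑(Finsupp.single n (∑ j ∈ t, v j))) (Rr (β (∑ j ∈ t, v j)) q) := by
      intro t
      rw [← Finsupp.single_finsetSum, Tr_block h0 hA]
    simp only [e1] at hq
    have e2 : ∑ t ∈ (Finset.univ : Finset (Fin d)).powerset,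
        (-1 : ℤ) ^ t.card • f (Rr (β (∑ j ∈ t, v j)) q) = (-1 : ℤ) ^ d • (f (Rr g q) - f q) := by
      have e3 : ∀ t ∈ (Finset.univ : Finset (Fin d)).powerset,
          (-1 : ℤ) ^ t.card • f (Rr (β (∑ j ∈ t, v j)) q) = (-1 : ℤ) ^ t.card • f q +
            (if t = Finset.univ then (-1 : ℤ) ^ d • (f (Rr g q) - f q) else 0) := by
        intro t _
        rw [hv]
        split_ifs with ht
        · subst ht; rw [Finset.card_fin, smul_sub]; abel
        · simp [Rr]
      rw [Finset.sum_congr rfl e3, Finset.sum_add_distrib, ← Finset.sum_smul,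
        Finset.sum_powerset_neg_one_pow_card, if_neg, zero_smul, zero_add,
        Finset.sum_ite_eq', if_pos (by simp)]
      intro h
      have := congrArg Finset.card h
      rw [Finset.card_fin, Finset.card_empty] at this
      omega
    have e4 : ∑ t ∈ (Finset.univ : Finset (Fin d)).powerset, (-1 : ℤ) ^ t.card •
        (f (Vt (⇑(Finsupp.single n (∑ j ∈ t, v j))) (Rr (β (∑ j ∈ t, v j)) q)) -
          f (Rr (β (∑ j ∈ t, v j)) q)) = -((-1 : ℤ) ^ d • (f (Rr g q) - f q)) := by
      simp only [smul_sub]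
      rw [Finset.sum_sub_distrib, hq, e2, zero_sub, smul_sub]
    calc NN (f (Rr g q) - f q) = NN (-((-1 : ℤ) ^ d • (f (Rr g q) - f q))) := by
          rw [NN_neg, NN_sign]
      _ ≤ _ := by
          rw [← e4]
          refine (NN_sum _ _).trans (le_of_eq ?_)
          exact Finset.sum_congr rfl fun t _ => NN_sign _ _
  calc ∫⁻ q in An β n, NN (f (Rr g q) - f q) ∂(mX V G)
      ≤ ∫⁻ q in An β n, ∑ t ∈ (Finset.univ : Finset (Fin d)).powerset,
        NN (f (Vt (⇑(Finsupp.single n (∑ j ∈ t, v j))) (Rr (β (∑ j ∈ t, v j)) q)) -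
          f (Rr (β (∑ j ∈ t, v j)) q)) ∂(mX V G) := by
        apply lintegral_mono_ae
        exact (ae_restrict_iff' (meas_An β n)).2 hpt
    _ ≤ ∫⁻ q, ∑ t ∈ (Finset.univ : Finset (Fin d)).powerset,
        NN (f (Vt (⇑(Finsupp.single n (∑ j ∈ t, v j))) (Rr (β (∑ j ∈ t, v j)) q)) -
          f (Rr (β (∑ j ∈ t, v j)) q)) ∂(mX V G) := setLIntegral_le_lintegral _ _
    _ = ∑ t ∈ (Finset.univ : Finset (Fin d)).powerset, ∫⁻ q,
        NN (f (Vt (⇑(Finsupp.single n (∑ j ∈ t, v j))) (Rr (β (∑ j ∈ t, v j)) q)) -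
          f (Rr (β (∑ j ∈ t, v j)) q)) ∂(mX V G) := by
        apply lintegral_finsetSum
        intro t _
        exact meas_NN (((hf.comp (mp_Vt _).measurable).comp (mp_Rr _).measurable).sub
          (hf.comp (mp_Rr _).measurable))
    _ = _ := by
        refine Finset.sum_congr rfl fun t _ => ?_
        have hm : Measurable fun q => NN (f (Vt (⇑(Finsupp.single n (∑ j ∈ t, v j))) q) - f q) :=
          meas_NN ((hf.comp (mp_Vt _).measurable).sub hf)
        have := (mp_Rr (V := V) (β (∑ j ∈ t, v j))).lintegral_comp hm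
        rw [this]
        unfold eps ec
        refine lintegral_congr fun q => ?_
        rw [enorm_ec_sub]

lemma tendsto_single (v : V) : Tendsto (fun n => (⇑(Finsupp.single n v) : ℕ → V)) atTop (𝓝 0) := by
  rw [tendsto_pi_nhds]
  intro m
  refine tendsto_const_nhds.congr' ?_
  filter_upwards [eventually_gt_atTop m] with n hn
  rw [Finsupp.single_apply, if_neg (by omega)]; rfl

/-- **Key lemma, base case.** -/
theorem key_base {β : V → G} (h0 : β 0 = 1) (hsurj : Function.Surjective β) {g : G} {d : ℕ}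
    (hd : 1 ≤ d) (hc : Cube β g d) {f : (ℕ → V) × G → UnitAddCircle} (hf : Measurable f)
    (hP : PolyLT (mX V G) (Tr β) d f) :
    ∀ᵐ q ∂(mX V G), f (Rr g q) - f q = 0 := by
  obtain ⟨v, hv⟩ := hc
  set Φ : (ℕ → V) × G → UnitAddCircle := fun q => f (Rr g q) - f q with hΦ
  have hΦm : Measurable Φ := (hf.comp (mp_Rr _).measurable).sub hf
  -- the shift elements
  let sh : ℕ → V × V → (ℕ → V) := fun n p => ⇑(Finsupp.single n p.1) + ⇑(Finsupp.single (n + 1) p.2)
  have hcover : ∀ n (q : (ℕ → V) × G), ∃ p : V × V, Vt (sh n p) q ∈ An β (n + 1) := by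
    rintro n ⟨x, c⟩
    obtain ⟨y, hy⟩ := hsurj ((Bn β n x)⁻¹ * c)
    refine ⟨(y - x n, - x (n + 1)), ?_, ?_⟩
    · simp [Vt, sh]
    · simp only [Vt, Bn]
      have e1 : Bn β n (x + sh n (y - x n, - x (n + 1))) = Bn β n x := Bn_congr β n fun m hm => by
        simp only [sh, Pi.add_apply, Finsupp.single_apply]
        rw [if_neg (by omega), if_neg (by omega)]; simp
      have e2 : (x + sh n (y - x n, - x (n + 1))) n = y := by
        simp [sh]
      rw [e1, e2, hy]; group
  have hbound : ∀ n, ∫⁻ q, NN (Φ q) ∂(mX V G) ≤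
      ∑ p : V × V, ((∑ t ∈ (Finset.univ : Finset (Fin d)).powerset,
        eps f (⇑(Finsupp.single (n + 1) (∑ j ∈ t, v j)))) + eps Φ (sh n p)) := by
    intro n
    have hmInd : Measurable fun q => (An β (n + 1)).indicator (fun q => NN (Φ q)) q :=
      (meas_NN hΦm).indicator (meas_An β _)
    have hmE : ∀ p, Measurable fun q => NN (Φ (Vt (sh n p) q) - Φ q) := fun p =>
      meas_NN ((hΦm.comp (mp_Vt _).measurable).sub hΦm)
    calc ∫⁻ q, NN (Φ q) ∂(mX V G)
        ≤ ∫⁻ q, ∑ p : V × V, ((An β (n + 1)).indicator (fun q => NN (Φ q)) (Vt (sh n p) q) +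
            NN (Φ (Vt (sh n p) q) - Φ q)) ∂(mX V G) := by
          apply lintegral_mono
          intro q
          obtain ⟨p, hp⟩ := hcover n q
          refine le_trans ?_ (Finset.single_le_sum (fun _ _ => zero_le) (Finset.mem_univ p))
          rw [Set.indicator_of_mem hp]
          have : Φ q = Φ (Vt (sh n p) q) + -(Φ (Vt (sh n p) q) - Φ q) := by abel
          calc NN (Φ q) = NN (Φ (Vt (sh n p) q) + -(Φ (Vt (sh n p) q) - Φ q)) := by rw [← this]
            _ ≤ _ := NN_add _ _
            _ = _ := by rw [NN_neg]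
      _ = ∑ p : V × V, ∫⁻ q, ((An β (n + 1)).indicator (fun q => NN (Φ q)) (Vt (sh n p) q) +
            NN (Φ (Vt (sh n p) q) - Φ q)) ∂(mX V G) := by
          apply lintegral_finsetSum
          intro p _
          exact (hmInd.comp (mp_Vt _).measurable).add (hmE p)
      _ ≤ _ := by
          refine Finset.sum_le_sum fun p _ => ?_
          rw [lintegral_add_right _ (hmE p)]
          refine add_le_add ?_ (le_of_eq ?_)
          · rw [(mp_Vt (G := G) (sh n p)).lintegral_comp hmInd, lintegral_indicator (meas_An β _)]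
            exact An_bound h0 hd hv hf hP (n + 1)
          · unfold eps ec
            exact lintegral_congr fun q => by rw [enorm_ec_sub]
  have hlim : Tendsto (fun n => ∑ p : V × V, ((∑ t ∈ (Finset.univ : Finset (Fin d)).powerset,
        eps f (⇑(Finsupp.single (n + 1) (∑ j ∈ t, v j)))) + eps Φ (sh n p))) atTop (𝓝 0) := by
    have z : (0 : ENNReal) = ∑ p : V × V, ((∑ t ∈ (Finset.univ : Finset (Fin d)).powerset,
        (0 : ENNReal)) + 0) := by simp
    rw [z]
    refine tendsto_finsetSum _ fun p _ => ?_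
    refine Tendsto.add (tendsto_finsetSum _ fun t _ => ?_) ?_
    · exact (eps_tendsto hf).comp ((tendsto_single _).comp (tendsto_add_atTop_nat 1))
    · refine (eps_tendsto hΦm).comp ?_
      have := (tendsto_single p.1).add ((tendsto_single p.2).comp (tendsto_add_atTop_nat 1))
      simpa [sh, Function.comp_def] using this
  have hzero : ∫⁻ q, NN (Φ q) ∂(mX V G) = 0 :=
    le_antisymm (ge_of_tendsto' hlim hbound) zero_le
  rw [lintegral_eq_zero_iff (meas_NN hΦm)] at hzero
  filter_upwards [hzero] with q hq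
  exact NN_eq_zero hq

/-- polynomials: measurability of the derivative -/
lemma meas_der {β : V → G} {f : (ℕ → V) × G → UnitAddCircle} (hf : Measurable f) (γ : ℕ →₀ V) :
    Measurable (der (Tr β) γ f) :=
  (hf.comp (mp_Tr β γ).measurable).sub hf

/-- **Key lemma.** -/
theorem key {β : V → G} (h0 : β 0 = 1) (hsurj : Function.Surjective β) {g : G} {d : ℕ}
    (hd : 1 ≤ d) (hc : Cube β g d) (r : ℕ) {f : (ℕ → V) × G → UnitAddCircle} (hf : Measurable f)
    (hP : PolyLT (mX V G) (Tr β) (r + d) f) :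
    PolyLT (mX V G) (Tr β) r (fun q => f (Rr g q) - f q) := by
  induction r generalizing f with
  | zero =>
    rw [zero_add] at hP
    exact key_base h0 hsurj hd hc hf hP
  | succ r ih =>
    intro γ
    have hP' : PolyLT (mX V G) (Tr β) (r + d) (der (Tr β) γ f) := by
      have : r + 1 + d = (r + d) + 1 := by omega
      rw [this] at hP
      exact hP γ
    have := ih (meas_der hf γ) hP'
    have e : (fun q => der (Tr β) γ f (Rr g q) - der (Tr β) γ f q) =
        der (Tr β) γ (fun q => f (Rr g q) - f q) := by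
      funext q
      simp only [der, Tr_Rr]
      abel
    rw [e] at this
    exact this

end key

end MP4077
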