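import Pool.Agent.Work.MP_4077b5_an.Erg
import Pool.Agent.Work.MP_4077b5_an.Alg

/-!
# The skew product is not Abramov of order 23
-/

set_option linter.unusedSectionVars false

namespace MP4077

open MeasureTheory Filter Topology

instance : TopologicalSpace Hs := ⊥
instance : DiscreteTopology Hs := ⟨rfl⟩
instance : MeasurableSpace Hs := ⊤
instance : DiscreteMeasurableSpace Hs := ⟨fun _ => trivial⟩

/-- fibre difference -/
def De {V G : Type} [Group G] (g : G) (f : (ℕ → V) × G → UnitAddCircle) :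
    (ℕ → V) × G → UnitAddCircle := fun q => f (Rr g q) - f q

section gen
variable {V G : Type} [AddCommGroup V] [Fintype V] [TopologicalSpace V] [DiscreteTopology V]
  [MeasurableSpace V] [DiscreteMeasurableSpace V]
  [Group G] [Fintype G] [TopologicalSpace G] [DiscreteTopology G]
  [MeasurableSpace G] [DiscreteMeasurableSpace G]

lemma key' {β : V → G} (h0 : β 0 = 1) (hsurj : Function.Surjective β) {g : G} {d : ℕ}
    (hd : 1 ≤ d) (hc : Cube β g d) {m : ℕ} {f : (ℕ → V) × G → UnitAddCircle} (hf : Measurable f)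
    (hP : PolyLT (mX V G) (Tr β) m f) :
    PolyLT (mX V G) (Tr β) (m - d) (De g f) :=
  key h0 hsurj hd hc (m - d) hf (PolyLT_mono (isAction_Tr β) (by omega) hP)

lemma meas_De {g : G} {f : (ℕ → V) × G → UnitAddCircle} (hf : Measurable f) :
    Measurable (De g f) := (hf.comp (mp_Rr _).measurable).sub hf

end gen

section abr
variable {V : Type} [AddCommGroup V] [Fintype V] [TopologicalSpace V] [DiscreteTopology V]
  [MeasurableSpace V] [DiscreteMeasurableSpace V]

open Hs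

lemma poly_inv {β : V → Hs} (h0 : β 0 = 1) (hsurj : Function.Surjective β)
    (cy : Cube β gy 8) (cx : Cube β gx 10) (cu : Cube β (gx ^ 2 * (gy ^ 4)⁻¹) 12)
    (cv : Cube β (gx ^ 2 * gy ^ 4) 12) (cx4 : Cube β (gx ^ 4) 14)
    {f : (ℕ → V) × Hs → UnitAddCircle} (hf : IsPoly (mX V Hs) (Tr β) 23 f) :
    ∀ᵐ q ∂(mX V Hs), f (Rr (gz ^ 8) q) = f q := by
  obtain ⟨hm, hP⟩ := hf
  have hgen : ∀ a : Hs, (a = gx ∨ a = gy) → ∃ d, 8 ≤ d ∧ Cube β a d := by
    rintro a (rfl | rfl)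
    · exact ⟨10, by norm_num, cx⟩
    · exact ⟨8, le_rfl, cy⟩
  have h3 : ∀ a b c : Hs, (a = gx ∨ a = gy) → (b = gx ∨ b = gy) → (c = gx ∨ c = gy) →
      ∀ᵐ q ∂(mX V Hs), De a (De b (De c f)) q = 0 := by
    intro a b c ha hb hc
    obtain ⟨da, hda, ca⟩ := hgen a ha
    obtain ⟨db, hdb, cb⟩ := hgen b hb
    obtain ⟨dc, hdc, cc⟩ := hgen c hc
    have := key' h0 hsurj (by omega) ca (meas_De (meas_De hm))
      (key' h0 hsurj (by omega) cb (meas_De hm) (key' h0 hsurj (by omega) cc hm hP))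
    have e : 23 + 1 - dc - db - da = 0 := by omega
    rw [e] at this
    exact this
  have huv : ∀ᵐ q ∂(mX V Hs), De (gx ^ 2 * (gy ^ 4)⁻¹) (De (gx ^ 2 * gy ^ 4) f) q = 0 :=
    key' h0 hsurj (by omega) cu (meas_De hm) (key' h0 hsurj (by omega) cv hm hP)
  have hx4 : ∀ᵐ q ∂(mX V Hs), De gx (De (gx ^ 4) f) q = 0 :=
    key' h0 hsurj (by omega) cx (meas_De hm) (key' h0 hsurj (by omega) cx4 hm hP)
  have h3' : ∀ᵐ x ∂(mK V), ∀ a b c : Hs, (a = gx ∨ a = gy) → (b = gx ∨ b = gy) →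
      (c = gx ∨ c = gy) → ∀ q, D a (D b (D c (fun c => f (x, c)))) q = 0 := by
    refine eventually_all.2 fun a => eventually_all.2 fun b => eventually_all.2 fun c =>
      eventually_all.2 fun ha => eventually_all.2 fun hb => eventually_all.2 fun hc => ?_
    exact ae_fiber (p := fun q => De a (De b (De c f)) q = 0) (h3 a b c ha hb hc)
  have huv' := ae_fiber huv
  have hx4' := ae_fiber hx4
  apply ae_of_fiber
  · exact measurableSet_eq_fun (hm.comp (mp_Rr _).measurable) hm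
  · filter_upwards [h3', huv', hx4'] with x h1 h2 h3 c
    exact obstruction (fun c => f (x, c)) h1 (h2 1) (h3 1) c

theorem not_abramov {β : V → Hs} (h0 : β 0 = 1) (hsurj : Function.Surjective β)
    (cy : Cube β gy 8) (cx : Cube β gx 10) (cu : Cube β (gx ^ 2 * (gy ^ 4)⁻¹) 12)
    (cv : Cube β (gx ^ 2 * gy ^ 4) 12) (cx4 : Cube β (gx ^ 4) 14) :
    ¬ IsAbramov (mX V Hs) (Tr β) 23 := by
  intro hA
  have hsig : ∀ B : Set ((ℕ → V) × Hs), MeasurableSet[polySigma (mX V Hs) (Tr β) 23] B →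
      ∀ᵐ q ∂(mX V Hs), (Rr (gz ^ 8) q ∈ B ↔ q ∈ B) := by
    intro B hB
    induction B, hB using MeasurableSpace.generateFrom_induction with
    | hC B hB _ =>
      obtain ⟨f, hf, U, _, rfl⟩ := hB
      filter_upwards [poly_inv h0 hsurj cy cx cu cv cx4 hf] with q hq
      rw [Set.mem_preimage, Set.mem_preimage, hq]
    | empty => simp
    | compl B _ ih =>
      filter_upwards [ih] with q hq
      rw [Set.mem_compl_iff, Set.mem_compl_iff, hq]
    | iUnion B _ ih =>
      filter_upwards [ae_all_iff.2 ih] with q hq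
      simp only [Set.mem_iUnion, hq]
  obtain ⟨B, hB, hAB⟩ := hA {q | q.2 = 1} (by
    apply IsClosed.measurableSet
    exact isClosed_eq continuous_snd continuous_const)
  have h1 : ∀ᵐ q ∂(mX V Hs), (q.2 = 1) = (q ∈ B) := hAB
  have h2 : ∀ᵐ q ∂(mX V Hs), ((Rr (gz ^ 8) q).2 = 1) = (Rr (gz ^ 8) q ∈ B) :=
    (mp_Rr (gz ^ 8)).quasiMeasurePreserving.ae h1
  have h3 : ∀ᵐ q ∂(mX V Hs), ((Rr (gz ^ 8) q).2 = 1 ↔ q.2 = 1) := by
    filter_upwards [h1, h2, hsig B hB] with q h1 h2 h3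
    rw [h1, h2, h3]
  obtain ⟨x, hx⟩ := (ae_fiber h3).exists
  have := (hx 1).2 rfl
  simp only [Rr, one_mul] at this
  rw [gz_pow] at this
  have h4 := congrArg Hs.l this
  revert h4
  decide

end abr

end MP4077
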