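import Pool.Agent.Work.MP_4077b5_an.Defs

/-!
# The skew product
-/

set_option linter.unusedSectionVars false

namespace MP4077

open MeasureTheory Filter Topology

section basic
variable {V G : Type} [AddCommGroup V] [Group G]

/-- partial products (finite ones) of the block function -/
def Bn (β : V → G) : ℕ → (ℕ → V) → G
  | 0, _ => 1
  | n + 1, x => Bn β n x * β (x n)

omit [AddCommGroup V] in
lemma Bn_congr (β : V → G) (n : ℕ) {x y : ℕ → V} (h : ∀ m < n, x m = y m) :
    Bn β n x = Bn β n y := by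
  induction n with
  | zero => rfl
  | succ n ih => simp only [Bn]; rw [ih (fun m hm => h m (by omega)), h n (by omega)]

/-- a bound for the support -/
def bd (γ : ℕ →₀ V) : ℕ := γ.support.sup id + 1

lemma bd_spec (γ : ℕ →₀ V) {n : ℕ} (h : bd γ ≤ n) : γ n = 0 := by
  by_contra hne
  have h1 : n ∈ γ.support := Finsupp.mem_support_iff.2 hne
  have h2 : n ≤ γ.support.sup id := Finset.le_sup (f := id) h1
  unfold bd at h
  omega

/-- the cocycle -/
def rho (β : V → G) (γ : ℕ →₀ V) (x : ℕ → V) : G :=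
  Bn β (bd γ) (x + ⇑γ) * (Bn β (bd γ) x)⁻¹

lemma Bn_stab (β : V → G) (γ : ℕ →₀ V) (x : ℕ → V) {n : ℕ} (h : ∀ m, n ≤ m → γ m = 0) (k : ℕ) :
    Bn β (n + k) (x + ⇑γ) * (Bn β (n + k) x)⁻¹ = Bn β n (x + ⇑γ) * (Bn β n x)⁻¹ := by
  induction k with
  | zero => rfl
  | succ k ih =>
    rw [← add_assoc, Bn, Bn, ← ih]
    have : (x + ⇑γ) (n + k) = x (n + k) := by simp [h (n + k) (by omega)]
    rw [this]
    group

lemma rho_eq (β : V → G) (γ : ℕ →₀ V) (x : ℕ → V) {n : ℕ} (h : ∀ m, n ≤ m → γ m = 0) :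
    rho β γ x = Bn β n (x + ⇑γ) * (Bn β n x)⁻¹ := by
  rw [rho, ← Bn_stab β γ x (fun m hm => bd_spec γ hm) n, ← Bn_stab β γ x h (bd γ),
    add_comm n (bd γ)]

lemma rho_zero (β : V → G) (x : ℕ → V) : rho β 0 x = 1 := by
  rw [rho_eq β 0 x (n := 0) (by simp)]
  simp [Bn]

lemma rho_add (β : V → G) (γ δ : ℕ →₀ V) (x : ℕ → V) :
    rho β (γ + δ) x = rho β γ (x + ⇑δ) * rho β δ x := by
  have h1 : ∀ m, max (bd γ) (bd δ) ≤ m → γ m = 0 := fun m hm => bd_spec γ (le_trans (le_max_left _ _) hm)
  have h2 : ∀ m, max (bd γ) (bd δ) ≤ m → δ m = 0 := fun m hm => bd_spec δ (le_trans (le_max_right _ _) hm)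
  have h3 : ∀ m, max (bd γ) (bd δ) ≤ m → (γ + δ) m = 0 := fun m hm => by
    simp [h1 m hm, h2 m hm]
  rw [rho_eq β _ x h3, rho_eq β _ _ h1, rho_eq β _ _ h2]
  have : x + ⇑(γ + δ) = x + ⇑δ + ⇑γ := by
    rw [Finsupp.coe_add]; abel
  rw [this]; group

/-- the skew product transformation -/
def Tr (β : V → G) (γ : ℕ →₀ V) (q : (ℕ → V) × G) : (ℕ → V) × G :=
  (q.1 + ⇑γ, rho β γ q.1 * q.2)

/-- right translation in the fibre -/
def Rr (g : G) (q : (ℕ → V) × G) : (ℕ → V) × G := (q.1, q.2 * g)

/-- translation in the base -/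
def Vt (a : ℕ → V) (q : (ℕ → V) × G) : (ℕ → V) × G := (q.1 + a, q.2)

lemma Tr_zero (β : V → G) (q : (ℕ → V) × G) : Tr β 0 q = q := by
  simp [Tr, rho_zero]

lemma Tr_add (β : V → G) (γ δ : ℕ →₀ V) (q : (ℕ → V) × G) :
    Tr β (γ + δ) q = Tr β γ (Tr β δ q) := by
  simp only [Tr, rho_add, Finsupp.coe_add, mul_assoc, Prod.mk.injEq, and_true]
  abel

lemma Tr_Rr (β : V → G) (γ : ℕ →₀ V) (g : G) (q : (ℕ → V) × G) :
    Tr β γ (Rr g q) = Rr g (Tr β γ q) := by
  simp [Tr, Rr, mul_assoc]

end basic

section meas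
variable {V G : Type} [AddCommGroup V] [Fintype V] [TopologicalSpace V] [DiscreteTopology V]
  [MeasurableSpace V] [DiscreteMeasurableSpace V]
  [Group G] [Fintype G] [TopologicalSpace G] [DiscreteTopology G]
  [MeasurableSpace G] [DiscreteMeasurableSpace G]

/-- uniform probability measure -/
noncomputable def unif (G : Type) [Fintype G] [MeasurableSpace G] : Measure G :=
  (Fintype.card G : ENNReal)⁻¹ • Measure.count

instance : IsProbabilityMeasure (unif G) := ⟨by
  have : (Fintype.card G : ENNReal) ≠ 0 := by simp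
  simp only [unif, Measure.smul_apply, smul_eq_mul, Measure.count_univ, ENat.card_eq_coe_fintype_card]
  exact ENNReal.inv_mul_cancel this (by simp)⟩

lemma ae_unif {p : G → Prop} : (∀ᵐ x ∂(unif G), p x) ↔ ∀ x, p x := by
  unfold unif
  rw [Filter.Eventually, Measure.ae_ennreal_smul_measure_eq (by simp), ← Filter.Eventually,
    Measure.ae_count_iff]

lemma unif_bij {f : G → G} (hf : Function.Bijective f) : (unif G).map f = unif G := by
  ext s hs
  rw [Measure.map_apply (by fun_prop) hs]
  simp only [unif, Measure.smul_apply, smul_eq_mul]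
  congr 1
  rw [Measure.count_apply (MeasurableSet.of_discrete), Measure.count_apply hs,
    Set.encard_preimage_of_bijective hf]

/-- the base measure -/
noncomputable def mK (V : Type) [AddCommGroup V] [Fintype V] [TopologicalSpace V]
    [DiscreteTopology V] [MeasurableSpace V] [DiscreteMeasurableSpace V] : Measure (ℕ → V) :=
  Measure.addHaarMeasure ⊤

instance : (mK V).IsAddHaarMeasure := by unfold mK; infer_instance

instance : IsProbabilityMeasure (mK V) := ⟨by
  have := Measure.addHaarMeasure_self (K₀ := (⊤ : TopologicalSpace.PositiveCompacts (ℕ → V)))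
  simpa [mK] using this⟩

/-- the measure on the skew product -/
noncomputable def mX (V G : Type) [AddCommGroup V] [Fintype V] [TopologicalSpace V]
    [DiscreteTopology V] [MeasurableSpace V] [DiscreteMeasurableSpace V]
    [Fintype G] [MeasurableSpace G] : Measure ((ℕ → V) × G) :=
  (mK V).prod (unif G)

instance : IsProbabilityMeasure (mX V G) := by unfold mX; infer_instance

lemma cont_Bn (β : V → G) (n : ℕ) : Continuous (Bn β n) := by
  induction n with
  | zero => exact continuous_const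
  | succ n ih =>
    exact ih.mul ((continuous_of_discreteTopology (f := β)).comp (continuous_apply n))

lemma cont_rho (β : V → G) (γ : ℕ →₀ V) : Continuous (rho β γ) :=
  ((cont_Bn β _).comp (continuous_id.add continuous_const)).mul (cont_Bn β _).inv

lemma cont_Tr (β : V → G) (γ : ℕ →₀ V) : Continuous (Tr β γ : (ℕ → V) × G → _) :=
  (continuous_fst.add continuous_const).prodMk
    (((cont_rho β γ).comp continuous_fst).mul continuous_snd)

lemma cont_Rr (g : G) : Continuous (Rr g : (ℕ → V) × G → _) :=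
  continuous_fst.prodMk (continuous_snd.mul continuous_const)

lemma mp_unif {f : G → G} (hf : Function.Bijective f) : MeasurePreserving f (unif G) (unif G) :=
  ⟨by fun_prop, unif_bij hf⟩

lemma mp_Rr (g : G) : MeasurePreserving (Rr g : (ℕ → V) × G → _) (mX V G) (mX V G) :=
  (MeasurePreserving.id (mK V)).prod (mp_unif (Group.mulRight_bijective g))

lemma mp_Vt (a : ℕ → V) : MeasurePreserving (Vt a : (ℕ → V) × G → _) (mX V G) (mX V G) :=
  (measurePreserving_add_right (mK V) a).prod (MeasurePreserving.id (unif G))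

/-- general skew map with a continuous fibre cocycle -/
lemma mp_skew (a : ℕ → V) {r : (ℕ → V) → G} (hr : Continuous r) :
    MeasurePreserving (fun q : (ℕ → V) × G => (q.1 + a, r q.1 * q.2)) (mX V G) (mX V G) := by
  refine MeasurePreserving.skew_product (f := fun x => x + a) (g := fun x c => r x * c)
    (measurePreserving_add_right (mK V) a) ?_ ?_
  · exact ((hr.comp continuous_fst).mul continuous_snd).measurable
  · filter_upwards with x
    exact unif_bij (Group.mulLeft_bijective _)

lemma mp_Tr (β : V → G) (γ : ℕ →₀ V) :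
    MeasurePreserving (Tr β γ : (ℕ → V) × G → _) (mX V G) (mX V G) :=
  mp_skew _ (cont_rho β γ)

lemma isAction_Tr (β : V → G) : IsAction (mX V G) (Tr β) :=
  ⟨Tr_zero β, Tr_add β, mp_Tr β⟩

/-- the circle valued exponential -/
noncomputable def ec {X : Type} (f : X → UnitAddCircle) (q : X) : ℂ := (AddCircle.toCircle (f q) : ℂ)

lemma meas_ec {X : Type} [MeasurableSpace X] {f : X → UnitAddCircle} (hf : Measurable f) :
    Measurable (ec f) :=
  (continuous_subtype_val.comp AddCircle.continuous_toCircle).measurable.comp hf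

lemma norm_ec {X : Type} (f : X → UnitAddCircle) (q : X) : ‖ec f q‖ = 1 := Circle.norm_coe _

/-- the L¹ distance between a function and its translate, measured through `toCircle` -/
noncomputable def eps (f : (ℕ → V) × G → UnitAddCircle) (a : ℕ → V) : ENNReal :=
  ∫⁻ q, ‖ec f (Vt a q) - ec f q‖ₑ ∂(mX V G)

lemma eps_tendsto {f : (ℕ → V) × G → UnitAddCircle} (hf : Measurable f) :
    Tendsto (eps f) (𝓝 0) (𝓝 0) := by
  have hm : MemLp (ec f) 1 (mX V G) :=
    MemLp.of_bound (meas_ec hf).aestronglyMeasurable 1 (Eventually.of_forall fun q => (norm_ec f q).le)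
  have hc : Continuous (fun p : (ℕ → V) × ((ℕ → V) × G) => Vt p.1 p.2) := by
    unfold Vt; fun_prop
  let Φ : C((ℕ → V), C((ℕ → V) × G, (ℕ → V) × G)) := ContinuousMap.curry ⟨_, hc⟩
  have hΦ : ∀ a q, Φ a q = Vt a q := fun a q => rfl
  have hmp : ∀ a, MeasurePreserving (Φ a) (mX V G) (mX V G) := fun a => mp_Vt a
  have h1 : Tendsto Φ (𝓝 0) (𝓝 (Φ 0)) := Φ.continuous.tendsto 0
  have h2 := Filter.Tendsto.compMeasurePreservingLp
    (tendsto_const_nhds (x := hm.toLp (ec f)) (f := 𝓝 (0 : ℕ → V))) h1 hmp (hmp 0) (by simp)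
  rw [tendsto_iff_edist_tendsto_0] at h2
  convert h2 using 2 with a
  rw [Lp.toLp_compMeasurePreserving, Lp.toLp_compMeasurePreserving, Lp.edist_toLp_toLp,
    eLpNorm_one_eq_lintegral_enorm]
  unfold eps
  congr 1
  funext q
  simp only [Pi.sub_apply, Function.comp, hΦ]
  congr 2
  simp [Vt]

end meas

end MP4077
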