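import Pool.Agent.Work.MP_4077b5_an.Beta

/-!
# The translational structure
-/

set_option linter.unusedSectionVars false

namespace MP4077

open MeasureTheory Filter Topology Hs
open scoped commutatorElement

/-- the base -/
abbrev KK : Type := ℕ → VV

instance : SecondCountableTopology KK := inferInstance
instance polK : PolishSpace KK where

section
variable (V G : Type) [AddCommGroup V] [Fintype V] [TopologicalSpace V] [DiscreteTopology V]
  [MeasurableSpace V] [DiscreteMeasurableSpace V]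
  [Group G] [Fintype G] [TopologicalSpace G] [DiscreteTopology G]
  [MeasurableSpace G] [DiscreteMeasurableSpace G]

lemma borelX : BorelSpace ((ℕ → V) × G) := inferInstance
lemma stdBorelX : StandardBorelSpace ((ℕ → V) × G) := inferInstance
end

instance : BorelSpace (KK × Hs) := borelX VV Hs
instance : StandardBorelSpace (KK × Hs) := stdBorelX VV Hs

instance discC : DiscreteTopology C(KK, Hs) := by
  rw [discreteTopology_iff_isOpen_singleton]
  intro h0
  have e : ({h0} : Set C(KK, Hs)) = ⋂ g : Hs, {h : C(KK, Hs) | Set.MapsTo h (h0 ⁻¹' {g}) {g}} := by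
    ext h
    simp only [Set.mem_singleton_iff, Set.mem_iInter]
    constructor
    · rintro rfl g x hx
      exact hx
    · intro H
      ext1 x
      have : h x ∈ ({h0 x} : Set Hs) := H (h0 x) (x := x) rfl
      exact this
  rw [e]
  refine isOpen_iInter_of_finite fun g => ?_
  refine ContinuousMap.isOpen_setOfPred_mapsTo ?_ (isOpen_discrete _)
  exact ((isClosed_discrete {g}).preimage h0.continuous).isCompact

instance : Countable C(KK, Hs) := countable_of_Lindelof_of_discrete

/-- polynomial maps of level `i` -/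
def Pol (i : ℕ) : Subgroup C(KK, Hs) where
  carrier := {h | ∀ n, PN n i (h : KK → Hs)}
  one_mem' := fun n => PN_one n i
  mul_mem' := fun hf hg n => PN_mul (hf n) (hg n)
  inv_mem' := fun hf n => PN_inv (hf n)

lemma mem_Pol {i : ℕ} {h : C(KK, Hs)} : h ∈ Pol i ↔ ∀ n, PN n i (h : KK → Hs) := Iff.rfl

/-- the shift by `a` -/
def shc (a : KK) : C(KK, KK) := ⟨fun x => x + a, by fun_prop⟩

lemma cont_shc : Continuous shc :=
  (ContinuousMap.curry ⟨fun p : KK × KK => p.2 + p.1, by fun_prop⟩).continuous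

/-- The Polish group. -/
def TG : Type := KK × Pol 1

instance : TopologicalSpace TG := inferInstanceAs (TopologicalSpace (KK × Pol 1))
instance : PolishSpace TG := inferInstanceAs (PolishSpace (KK × Pol 1))

/-- action of the base on polynomial maps -/
def sh (a : KK) {i : ℕ} (h : Pol i) : Pol i :=
  ⟨h.1.comp (shc a), fun n => PN_shift a (h.2 n)⟩

@[simp] lemma sh_apply (a : KK) {i : ℕ} (h : Pol i) (x : KK) : (sh a h).1 x = h.1 (x + a) := rfl

lemma TG_ext {p q : TG} (h1 : p.1 = q.1) (h2 : ∀ x, p.2.1 x = q.2.1 x) : p = q := by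
  apply Prod.ext h1
  apply Subtype.ext
  exact ContinuousMap.ext h2

instance : Mul TG := ⟨fun p q => (p.1 + q.1, sh q.1 p.2 * q.2)⟩
instance : One TG := ⟨((0 : KK), (1 : Pol 1))⟩
instance : Inv TG := ⟨fun p => (-p.1, (sh (-p.1) p.2)⁻¹)⟩

@[simp] lemma TG_mul_fst (p q : TG) : (p * q).1 = p.1 + q.1 := rfl
@[simp] lemma TG_mul_snd (p q : TG) (x : KK) : (p * q).2.1 x = p.2.1 (x + q.1) * q.2.1 x := rfl
@[simp] lemma TG_one_fst : (1 : TG).1 = 0 := rfl
@[simp] lemma TG_one_snd (x : KK) : (1 : TG).2.1 x = 1 := rfl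
@[simp] lemma TG_inv_fst (p : TG) : (p⁻¹).1 = -p.1 := rfl
@[simp] lemma TG_inv_snd (p : TG) (x : KK) : (p⁻¹).2.1 x = (p.2.1 (x + -p.1))⁻¹ := rfl

instance : Group TG :=
  Group.ofLeftAxioms
    (fun p q r => by
      apply TG_ext
      · simp [add_assoc]
      · intro x
        have e : x + r.1 + q.1 = x + (q.1 + r.1) := by abel
        simp only [TG_mul_snd, TG_mul_fst, mul_assoc, e])
    (fun p => by
      apply TG_ext
      · simp
      · intro x; simp)
    (fun p => by
      apply TG_ext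
      · simp
      · intro x; simp)

instance : IsTopologicalGroup TG where
  continuous_mul := by
    have h1 : Continuous fun p : TG × TG => (p.1.1 : KK) + p.2.1 :=
      (continuous_fst.comp continuous_fst).add (continuous_fst.comp continuous_snd)
    have h2 : Continuous fun p : TG × TG => sh p.2.1 p.1.2 * p.2.2 := by
      refine Continuous.mul ?_ (continuous_snd.comp continuous_snd)
      refine Continuous.subtype_mk ?_ _
      exact (continuous_subtype_val.comp (continuous_snd.comp continuous_fst)).compCM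
        (cont_shc.comp (continuous_fst.comp continuous_snd))
    exact h1.prodMk h2
  continuous_inv := by
    have h1 : Continuous fun p : TG => -(p.1 : KK) := continuous_fst.neg
    have h2 : Continuous fun p : TG => (sh (-(p.1 : KK)) p.2)⁻¹ := by
      refine Continuous.inv ?_
      refine Continuous.subtype_mk ?_ _
      exact (continuous_subtype_val.comp continuous_snd).compCM (cont_shc.comp h1)
    exact h1.prodMk h2

/-- The filtration. -/
def Fil (i : ℕ) : Subgroup TG where
  carrier := {p | (2 ≤ i → p.1 = 0) ∧ ∀ n, PN n i (p.2.1 : KK → Hs)}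
  one_mem' := ⟨fun _ => rfl, fun n => PN_one n i⟩
  mul_mem' := by
    rintro p q ⟨h1, h2⟩ ⟨h3, h4⟩
    refine ⟨fun hi => ?_, fun n => ?_⟩
    · rw [TG_mul_fst, h1 hi, h3 hi, add_zero]
    · exact PN_mul (PN_shift q.1 (h2 n)) (h4 n)
  inv_mem' := by
    rintro p ⟨h1, h2⟩
    refine ⟨fun hi => ?_, fun n => ?_⟩
    · rw [TG_inv_fst, h1 hi, neg_zero]
    · exact PN_inv (PN_shift (-p.1) (h2 n))

lemma mem_Fil {i : ℕ} {p : TG} :
    p ∈ Fil i ↔ (2 ≤ i → p.1 = 0) ∧ ∀ n, PN n i (p.2.1 : KK → Hs) := Iff.rfl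

lemma Fil_one : Fil 1 = ⊤ := by
  rw [eq_top_iff]
  intro p _
  exact ⟨fun h => absurd h (by norm_num), p.2.2⟩

lemma Fil_zero : Fil 0 = ⊤ := by
  rw [eq_top_iff]
  intro p _
  exact ⟨fun h => absurd h (by norm_num), fun n => PN_anti (by norm_num) (p.2.2 n)⟩

lemma Fil_anti : Antitone Fil := by
  intro i j hij p hp
  exact ⟨fun h => hp.1 (by omega), fun n => PN_anti hij (hp.2 n)⟩

lemma Fil_bot : Fil 24 = ⊥ := by
  rw [eq_bot_iff]
  intro p hp
  rw [Subgroup.mem_bot]
  apply TG_ext
  · exact hp.1 (by norm_num)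
  · intro x
    have := PN_val (hp.2 0) x
    rw [F_bot le_rfl, Subgroup.mem_bot] at this
    exact this

lemma Fil_closed (i : ℕ) : IsClosed (Fil i : Set TG) := by
  have h2 : IsClosed {p : TG | ∀ n, PN n i (p.2.1 : KK → Hs)} :=
    (isClosed_discrete {h : Pol 1 | ∀ n, PN n i (h.1 : KK → Hs)}).preimage
      (continuous_snd (X := KK) (Y := Pol 1))
  by_cases hi : 2 ≤ i
  · have h1 : IsClosed {p : TG | p.1 = 0} :=
      isClosed_eq (continuous_fst (X := KK) (Y := Pol 1)) continuous_const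
    have : (Fil i : Set TG) = {p : TG | p.1 = 0} ∩ {p : TG | ∀ n, PN n i (p.2.1 : KK → Hs)} := by
      ext p; exact ⟨fun h => ⟨h.1 hi, h.2⟩, fun h => ⟨fun _ => h.1, h.2⟩⟩
    rw [this]; exact h1.inter h2
  · have : (Fil i : Set TG) = {p : TG | ∀ n, PN n i (p.2.1 : KK → Hs)} := by
      ext p; exact ⟨fun h => h.2, fun h => ⟨fun h' => absurd h' hi, h⟩⟩
    rw [this]; exact h2

lemma Fil_comm (i j : ℕ) : ⁅Fil i, Fil j⁆ ≤ Fil (i + j) := by
  rw [Subgroup.commutator_le]
  intro p hp q hq
  have e1 : ⁅p, q⁆.1 = 0 := by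
    rw [commutatorElement_def]
    simp only [TG_mul_fst, TG_inv_fst]
    abel
  have e2 : (⁅p, q⁆.2.1 : KK → Hs) = fun x =>
      (fun z => (dv q.1 (p.2.1 : KK → Hs) z * cm (p.2.1 z) (q.2.1 z)) *
        (dv p.1 (q.2.1 : KK → Hs) z)⁻¹) (x + (-q.1 + -p.1)) := by
    funext x
    rw [commutatorElement_def]
    simp only [TG_mul_snd, TG_inv_snd, TG_inv_fst, dv, cm]
    have a1 : x + -q.1 + -p.1 = x + (-q.1 + -p.1) := by abel
    have a2 : x + (-q.1 + -p.1) + p.1 = x + -q.1 := by abel
    rw [a1, a2]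
    group
  refine ⟨fun _ => e1, fun n => ?_⟩
  rw [e2]
  refine PN_shift (-q.1 + -p.1) (h := fun z => (dv q.1 (p.2.1 : KK → Hs) z *
    cm (p.2.1 z) (q.2.1 z)) * (dv p.1 (q.2.1 : KK → Hs) z)⁻¹) ?_
  have hd : ∀ (f : KK → Hs) (a : KK) (s t : ℕ), (∀ n, PN n s f) → (2 ≤ t → a = 0) →
      PN n (s + t) (dv a f) := by
    intro f a s t hf ha
    by_cases ht : 2 ≤ t
    · rw [ha ht]
      have : dv 0 f = fun _ => 1 := by funext x; simp [dv]
      rw [this]; exact PN_one _ _
    · exact PN_anti (by omega) ((hf (n + 1)).2 a)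
  refine PN_mul (PN_mul ?_ ?_) (PN_inv ?_)
  · exact hd _ _ i j hp.2 hq.1
  · exact PN_cm (hp.2 n) (hq.2 n)
  · rw [add_comm i j]
    exact hd _ _ j i hq.2 hp.1

lemma Fil_normal (i : ℕ) : (Fil i).Normal := by
  refine ⟨fun p hp g => ?_⟩
  have h1 : ⁅g, p⁆ ∈ Fil (1 + i) := Fil_comm 1 i
    (Subgroup.commutator_mem_commutator (by rw [Fil_one]; trivial) hp)
  have h2 : g * p * g⁻¹ = ⁅g, p⁆ * p := by rw [commutatorElement_def]; group
  rw [h2]
  exact mul_mem (Fil_anti (by omega) h1) hp

/-- the cocompact subgroup -/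
def Lam : Subgroup TG where
  carrier := {p | p.1 = 0 ∧ p.2.1 0 = 1}
  one_mem' := ⟨rfl, rfl⟩
  mul_mem' := by
    rintro p q ⟨h1, h2⟩ ⟨h3, h4⟩
    refine ⟨by rw [TG_mul_fst, h1, h3, add_zero], ?_⟩
    rw [TG_mul_snd, h3, add_zero, h2, h4, mul_one]
  inv_mem' := by
    rintro p ⟨h1, h2⟩
    refine ⟨by rw [TG_inv_fst, h1, neg_zero], ?_⟩
    rw [TG_inv_snd, h1, neg_zero, add_zero, h2, inv_one]

lemma mem_Lam {p : TG} : p ∈ Lam ↔ p.1 = 0 ∧ p.2.1 0 = 1 := Iff.rfl

lemma Lam_closed : IsClosed (Lam : Set TG) := by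
  have h1 : IsClosed {p : TG | p.1 = 0} :=
    isClosed_eq (continuous_fst (X := KK) (Y := Pol 1)) continuous_const
  have h2 : IsClosed {p : TG | p.2.1 0 = 1} :=
    (isClosed_discrete {h : Pol 1 | h.1 0 = 1}).preimage (continuous_snd (X := KK) (Y := Pol 1))
  exact h1.inter h2

/-- the forward map -/
def fwd : TG ⧸ Lam → KK × Hs :=
  Quotient.lift (fun p : TG => ((p.1, p.2.1 0) : KK × Hs)) (by
    intro p q hpq
    have h : p⁻¹ * q ∈ Lam := QuotientGroup.leftRel_apply.1 hpq
    obtain ⟨h1, h2⟩ := h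
    have e1 : q.1 = p.1 := by
      rw [TG_mul_fst, TG_inv_fst] at h1
      have : q.1 = p.1 + (-p.1 + q.1) := by abel
      rw [this, h1, add_zero]
    rw [TG_mul_snd, TG_inv_snd, zero_add, e1, add_neg_cancel] at h2
    have e2 : p.2.1 0 = q.2.1 0 := inv_mul_eq_one.1 h2
    simp only [e1, e2])

lemma cont_fwd : Continuous fwd := by
  refine Continuous.quotient_lift ?_ _
  refine (continuous_fst (X := KK) (Y := Pol 1)).prodMk ?_
  exact (continuous_of_discreteTopology (f := fun h : Pol 1 => h.1 0)).comp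
    (continuous_snd (X := KK) (Y := Pol 1))

/-- constants -/
def cst (c : Hs) : Pol 1 := ⟨ContinuousMap.const _ c, fun n => PN_const (by
  rw [F_top (by norm_num)]; trivial) n⟩

/-- the section -/
def sec (q : KK × Hs) : TG := ((q.1, cst q.2) : KK × Pol 1)

lemma cont_sec : Continuous sec :=
  continuous_fst.prodMk ((continuous_of_discreteTopology (f := cst)).comp continuous_snd)

/-- the backward map -/
def bwd (q : KK × Hs) : TG ⧸ Lam := QuotientGroup.mk (sec q)

lemma cont_bwd : Continuous bwd := QuotientGroup.continuous_mk.comp cont_sec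

lemma fwd_mk (p : TG) : fwd (QuotientGroup.mk p) = (p.1, p.2.1 0) := rfl

lemma fwd_bwd (q : KK × Hs) : fwd (bwd q) = q := rfl

lemma bwd_fwd (y : TG ⧸ Lam) : bwd (fwd y) = y := by
  induction y using QuotientGroup.induction_on with
  | H p =>
    rw [fwd_mk, bwd, QuotientGroup.eq]
    refine ⟨?_, ?_⟩
    · rw [TG_mul_fst, TG_inv_fst]
      change -p.1 + p.1 = 0
      abel
    · rw [TG_mul_snd, TG_inv_snd]
      change (p.2.1 0)⁻¹ * p.2.1 0 = 1
      rw [inv_mul_cancel]

lemma fwd_inj {y z : TG ⧸ Lam} (h : fwd y = fwd z) : y = z := by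
  rw [← bwd_fwd y, h, bwd_fwd]

instance compQ : CompactSpace (TG ⧸ Lam) := by
  have : Function.Surjective bwd := fun y => ⟨fwd y, bwd_fwd y⟩
  exact this.compactSpace cont_bwd

lemma smul_bwd (p : TG) (q : KK × Hs) : p • bwd q = bwd (q.1 + p.1, p.2.1 q.1 * q.2) := by
  apply fwd_inj
  rw [fwd_bwd]
  change fwd (QuotientGroup.mk (p * sec q)) = _
  rw [fwd_mk]
  ext1
  · rw [TG_mul_fst, add_comm]; rfl
  · rw [TG_mul_snd, zero_add]; rfl

/-- the homomorphism -/
noncomputable def phi : Multiplicative (ℕ →₀ VV) →* TG where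
  toFun γ := (((Multiplicative.toAdd γ : ℕ →₀ VV) : KK),
    (⟨⟨rho bet (Multiplicative.toAdd γ), cont_rho _ _⟩, PN_rho _⟩ : Pol 1))
  map_one' := by
    apply TG_ext
    · rfl
    · intro x; exact rho_zero bet x
  map_mul' γ δ := by
    apply TG_ext
    · rfl
    · intro x; exact rho_add bet _ _ x

theorem trans_bet : IsTranslational (mX VV Hs) (Tr bet) 23 := by
  let mq : MeasurableSpace (TG ⧸ Lam) := borel _
  have bq : BorelSpace (TG ⧸ Lam) := ⟨rfl⟩
  have hb : Measurable bwd := cont_bwd.measurable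
  have hf : Measurable fwd := cont_fwd.measurable
  refine ⟨TG, inferInstance, inferInstance, Fil, Lam, mq, (mX VV Hs).map bwd, phi,
    inferInstance, inferInstance, Fil_zero, Fil_one, Fil_anti, Fil_bot, Fil_closed, Fil_normal,
    Fil_comm, Lam_closed, inferInstance, bq, ?_, ?_, ?_⟩
  · exact Measure.isProbabilityMeasure_map hb.aemeasurable
  · intro p
    have hp : Measurable (fun y : TG ⧸ Lam => p • y) := (continuous_const_smul p).measurable
    have hs := mp_skew (V := VV) (G := Hs) p.1 (r := p.2.1) p.2.1.continuous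
    rw [Measure.map_map hp hb]
    have e : (fun y : TG ⧸ Lam => p • y) ∘ bwd =
        bwd ∘ (fun q : KK × Hs => (q.1 + p.1, p.2.1 q.1 * q.2)) := by
      funext q; exact smul_bwd p q
    rw [e, ← Measure.map_map hb hs.measurable, hs.map_eq]
  · refine ⟨bwd, fwd, ⟨hb, rfl⟩, ⟨hf, ?_⟩, ?_, ?_, ?_⟩
    · rw [Measure.map_map hf hb]
      have : fwd ∘ bwd = id := by funext q; rfl
      rw [this, Measure.map_id]
    · exact Eventually.of_forall fun q => rfl
    · exact Eventually.of_forall fun y => bwd_fwd y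
    · intro γ
      refine Eventually.of_forall fun q => ?_
      change bwd (Tr bet γ q) = phi (Multiplicative.ofAdd γ) • bwd q
      rw [smul_bwd]
      rfl

end MP4077
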